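import Pool.Agent.V8H26.YL.Man

/-!
# All the classes have the same size
-/

set_option autoImplicit false
set_option linter.all false

namespace Pool.Agent.V8H26.YL

open Finset Polynomial Pool.Agent.H341R2.Sharp Filter Topology
open Pool.Agent.V8H26.XL (Arr MM MM_const Fe Fe_nonneg Fe_le dm arr F2s params' ct ct_eq ct_le le_ct tp)
open Pool.Agent.Y164.PS
open scoped Classical

section
variable {k : Type} [Field k] [Fintype k] [DecidableEq k]
variable {ι : Type} [Fintype ι]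
variable {a b : k[X]} {N : ℕ} (H : Hyp a b N) (ep : Tau a b → ZMod 2)

/-- auxiliary data for a class -/
noncomputable def dA : DE (Tau a b) where
  toDat := aux fun s => 1 + ep s + gv a b s
  ep := fun _ => 1
  hep := fun _ _ => rfl

include H in
theorem clA_iff {n : ℕ} {T : ι → k[X]} (hT : T ∈ Tp k ι n) (hn : nb a b (∏ i, T i)) :
    clE (dA ep) (QQ a b) T ↔ gclE a b ep (∏ i, T i) := by
  have h1 := (mem_Tp.1 hT).1
  apply forall_congr'
  intro s
  have h2 : L (∏ i, T i) (QQ a b s) = ∑ i, BT (QQ a b) T i s := by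
    apply L_prod_left (H.fam.irr s).ne_zero (fun i _ => (h1 i).1.ne_zero)
    intro i _
    apply coprime_of_not_dvd (H.fam.irr s)
    intro hd
    exact hn s (hd.trans (dvd_prod_of_mem _ (mem_univ i)))
  rw [h2]
  show 1 + ∑ i, BT (QQ a b) T i s + (1 + ep s + gv a b s) = 0 ↔ _
  have h3 : ∀ x y z : ZMod 2, 1 + y + (1 + x + z) = 0 ↔ x + y + z = 0 := by decide
  exact h3 _ _ _

include H in
theorem tup_cnt (hq : 4 ≤ Fintype.card k) {n z s : ℕ} (hz : 2 ≤ z) {ε : ℝ} (hε : 0 < ε)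
    (hε2 : ε ≤ 1 / 2) (hm : s + 1 ≤ Fintype.card ι)
    (hB : et a b n z * (4 ^ Fintype.card ι * 4 ^ Fintype.card (Tau a b)) ≤ ε) :
    (1 - ε) * ∑ T ∈ Xt k ι n z s, (if ok (QQ a b) T then (1 : ℝ) else 0) ≤
      2 ^ Fintype.card (Tau a b) *
        ∑ T ∈ Xt k ι n z s,
          (if ok (QQ a b) T ∧ clE (dA ep) (QQ a b) T then (1 : ℝ) else 0) := by
  have key : ∀ T0 ∈ Xt k ι n z s,
      (1 - ε) * OK (QQ a b) (cell z T0) ≤
        2 ^ Fintype.card (Tau a b) * YYE (dA ep) (QQ a b) (cell z T0) := by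
    intro T0 h0'
    rw [Xt, mem_filter] at h0'
    have hlm : (lgs z T0).card ≤ Fintype.card ι := card_le_univ _
    have hne : (lgs z T0).Nonempty := by
      rw [← card_pos]
      omega
    have hc0 := cell_inst H hq hz h0'.1 hne
    have hc : Cell (dA ep).toDat (QQ a b) (cell z T0) (lgs z T0) _ _ :=
      ⟨hc0.hm, hc0.Qm, hc0.Qi, hc0.mon, hc0.irr, hc0.deg, hc0.eta, hc0.eta', hc0.eta0, hc0.lgne⟩
    have het := et_nonneg (a := a) (b := b) n z
    have h3 : (Fintype.card ι : ℝ) + 1 ≤ 2 ^ Fintype.card ι := by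
      have : Fintype.card ι + 1 ≤ 2 ^ Fintype.card ι := Nat.lt_pow_self (by norm_num)
      exact_mod_cast this
    have h2 : ((lgs z T0).card : ℝ) ≤ Fintype.card ι := by exact_mod_cast hlm
    have h5 : (2 : ℝ) ^ Fintype.card ι * 2 ^ Fintype.card ι = 4 ^ Fintype.card ι := by
      rw [← mul_pow]; norm_num
    have h5' : (2 : ℝ) ^ Fintype.card (Tau a b) * 2 ^ Fintype.card (Tau a b) =
        4 ^ Fintype.card (Tau a b) := by
      rw [← mul_pow]; norm_num
    refine (cell_law (F := fun _ => 0) (c := 0) (d := dm T0) hc ?_ (fun _ => le_rfl)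
      (fun _ => zero_le_one) le_rfl zero_le_one hε hε2 ?_ ?_ ?_).2
    · intro i hi
      rw [lgs, mem_filter] at hi
      push Not at hi
      exact ⟨T0 i, by rw [cell, if_pos (hi (mem_univ _))]⟩
    · intro l hl1 hl2 a'
      have e0 : Ps (dA ep) (dm T0) (fun _ => 0) 0 = fun _ : Arr ι (Tau a b) => (0 : ℝ) := by
        funext c
        rw [Ps, sub_self, mul_zero]
      rw [e0, MM_const, abs_zero]
      positivity
    · refine le_trans ?_ hB
      rw [pow_add]
      have h6 : ((lgs z T0).card : ℝ) ≤ 2 ^ Fintype.card ι := by linarith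
      have h7 : (0 : ℝ) ≤ et a b n z * (2 ^ Fintype.card ι * 4 ^ Fintype.card (Tau a b)) :=
        mul_nonneg het (by positivity)
      have h8 := mul_le_mul_of_nonneg_right h6 h7
      calc ((lgs z T0).card : ℝ) * (2 ^ Fintype.card ι * 2 ^ Fintype.card (Tau a b) * et a b n z) *
            2 ^ Fintype.card (Tau a b) = (lgs z T0).card * (et a b n z * (2 ^ Fintype.card ι *
              (2 ^ Fintype.card (Tau a b) * 2 ^ Fintype.card (Tau a b)))) := by ring
        _ = (lgs z T0).card * (et a b n z * (2 ^ Fintype.card ι *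
              4 ^ Fintype.card (Tau a b))) := by rw [h5']
        _ ≤ 2 ^ Fintype.card ι * (et a b n z * (2 ^ Fintype.card ι *
              4 ^ Fintype.card (Tau a b))) := h8
        _ = et a b n z * ((2 ^ Fintype.card ι * 2 ^ Fintype.card ι) *
              4 ^ Fintype.card (Tau a b)) := by ring
        _ = _ := by rw [h5]
    · have h6 : ((lgs z T0).card : ℝ) + 2 ^ Fintype.card (Tau a b) ≤
          4 ^ Fintype.card ι * 4 ^ Fintype.card (Tau a b) := by
        have h4 : (2 : ℝ) ^ Fintype.card (Tau a b) ≤ 4 ^ Fintype.card (Tau a b) :=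
          pow_le_pow_left₀ (by norm_num) (by norm_num) _
        have h5 : (1 : ℝ) ≤ 4 ^ Fintype.card (Tau a b) := one_le_pow₀ (by norm_num)
        have h6 : (0 : ℝ) ≤ Fintype.card ι := Nat.cast_nonneg _
        have h7 : (2 : ℝ) ^ Fintype.card ι ≤ 4 ^ Fintype.card ι :=
          pow_le_pow_left₀ (by norm_num) (by norm_num) _
        nlinarith
      calc ((lgs z T0).card + 2 ^ Fintype.card (Tau a b)) * et a b n z ≤
          (4 ^ Fintype.card ι * 4 ^ Fintype.card (Tau a b)) * et a b n z :=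
            mul_le_mul_of_nonneg_right h6 het
        _ ≤ ε := by rw [mul_comm]; exact hB
  have h2 := cells_nonneg (z := z) (X := Xt k ι n z s) Xt_closed Xt_self
    (fun T => 2 ^ Fintype.card (Tau a b) *
      (if ok (QQ a b) T ∧ clE (dA ep) (QQ a b) T then (1 : ℝ) else 0) -
      (1 - ε) * (if ok (QQ a b) T then (1 : ℝ) else 0)) (by
      intro T0 hT0
      have h2 := key T0 hT0
      rw [sum_sub_distrib, ← mul_sum, ← mul_sum]
      exact sub_nonneg.2 h2)
  rw [sum_sub_distrib, ← mul_sum, ← mul_sum] at h2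
  exact sub_nonneg.1 h2

include H in
theorem lvl_cnt' (ι : Type) [Fintype ι] (hq : 4 ≤ Fintype.card k)
    {n m z s : ℕ} (hcm : Fintype.card ι = m) (hz : 2 ≤ z) {ε : ℝ}
    (hε : 0 < ε) (hε2 : ε ≤ 1 / 2) (hm : s + 1 ≤ m)
    (hB : et a b n z * (4 ^ m * 4 ^ Fintype.card (Tau a b)) ≤ ε) :
    (1 - ε) * (((Sf k n).filter fun D => (pf D).card = m ∧ sm z D ≤ s ∧ nb a b D).card : ℝ) ≤
      2 ^ Fintype.card (Tau a b) * (((Sf k n).filter fun D => (pf D).card = m ∧ sm z D ≤ s ∧
        P1E a b ep D).card : ℝ) := by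
  have h0 := tup_cnt (ι := ι) (n := n) (s := s) H ep hq hz hε hε2 (by rw [hcm]; exact hm)
    (by rw [hcm]; exact hB)
  have hf : (0 : ℝ) < ((Fintype.card ι).factorial : ℝ) := by
    exact_mod_cast Nat.factorial_pos _
  have c1 := conv (k := k) (ι := ι) n z s (P1E a b ep)
  have c2 := conv (k := k) (ι := ι) n z s (nb a b)
  rw [hcm] at c1 c2
  rw [hcm] at hf
  have h1 : ∀ T ∈ Xt k ι n z s, ((ok (QQ a b) T ∧ clE (dA ep) (QQ a b) T) ↔
      (Function.Injective T ∧ P1E a b ep (∏ i, T i))) := by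
    intro T hT
    rw [Xt, mem_filter] at hT
    constructor
    · rintro ⟨h2, h3⟩
      have h4 := (ok_iff H hT.1).1 h2
      exact ⟨h4.1, h4.2, (clA_iff H ep hT.1 h4.2).1 h3⟩
    · rintro ⟨h2, h3, h4⟩
      exact ⟨(ok_iff H hT.1).2 ⟨h2, h3⟩, (clA_iff H ep hT.1 h3).2 h4⟩
  have e1 : ∑ T ∈ Xt k ι n z s, (if ok (QQ a b) T ∧ clE (dA ep) (QQ a b) T then (1 : ℝ) else 0)
      = ∑ T ∈ Xt k ι n z s, (if Function.Injective T ∧ P1E a b ep (∏ i, T i)
        then (1 : ℝ) else 0) := by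
    refine sum_congr rfl fun T hT => ?_
    simp only [h1 T hT]
  have e2 : ∑ T ∈ Xt k ι n z s, (if ok (QQ a b) T then (1 : ℝ) else 0)
      = ∑ T ∈ Xt k ι n z s, (if Function.Injective T ∧ nb a b (∏ i, T i)
        then (1 : ℝ) else 0) := by
    refine sum_congr rfl fun T hT => ?_
    rw [Xt, mem_filter] at hT
    simp only [ok_iff H hT.1]
  rw [e1, e2, c1, c2] at h0
  have h2 : (m.factorial : ℝ) * ((1 - ε) * (((Sf k n).filter fun D => (pf D).card = m ∧
      sm z D ≤ s ∧ nb a b D).card : ℝ)) ≤ (m.factorial : ℝ) *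
      (2 ^ Fintype.card (Tau a b) * (((Sf k n).filter fun D => (pf D).card = m ∧ sm z D ≤ s ∧
      P1E a b ep D).card : ℝ)) := by
    linarith
  exact le_of_mul_le_mul_left h2 hf

end

variable {k : Type} [Field k] [Fintype k] [DecidableEq k]
variable {a b : k[X]} {N : ℕ} (H : Hyp a b N) (ep : Tau a b → ZMod 2)

include H in
/-- a class is at least the expected part -/
theorem cnt_low (hq : 4 ≤ Fintype.card k) {ε' : ℝ} (hε' : 0 < ε') : ∀ᶠ n : ℕ in atTop,
    (1 - ε') * (((Sf k n).filter (nb a b)).card : ℝ) ≤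
      2 ^ Fintype.card (Tau a b) * (((Sf k n).filter (P1E a b ep)).card : ℝ) := by
  set q : ℝ := (Fintype.card k : ℝ) with hqd
  have hq4 : (4 : ℝ) ≤ q := by rw [hqd]; exact_mod_cast hq
  obtain ⟨c0, hc0, hlow⟩ := nb_lower H hq
  obtain ⟨ε, hε0, hε1, hεε⟩ : ∃ ε : ℝ, 0 < ε ∧ ε ≤ 1 / 10 ∧ 2 * ε ≤ ε' :=
    ⟨min (1 / 10) (ε' / 2), lt_min (by norm_num) (by positivity), min_le_left _ _, by
      have := min_le_right (1 / 10 : ℝ) (ε' / 2)
      linarith⟩
  obtain ⟨A, hA⟩ := params' (k := k) H.hk a b (c0 * ε) (by positivity)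
  filter_upwards [hA ε 0 hε0, hlow] with n hn hl
  obtain ⟨l, s, z, h2, h3, h4, h5⟩ := hn
  have key : ∀ m ∈ Icc (7 * (l / 25)) (A * l), _ := fun m hm =>
    lvl_cnt' (n := n) (m := m) (z := z) (s := s) H ep (Fin m) hq (Fintype.card_fin m) h2 hε0
      (by linarith) (by
        have := (mem_Icc.1 hm).1
        omega) (h4 m (mem_Icc.1 hm).2)
  have k1 : (1 - ε) * ct A l s z n (nb a b) ≤
      2 ^ Fintype.card (Tau a b) * ct A l s z n (P1E a b ep) := by
    rw [ct_eq, ct_eq, mul_sum, mul_sum]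
    exact sum_le_sum fun m hm => key m hm
  have k2 := ct_le A l s z n (P1E a b ep)
  have k3 := le_ct A l s z n (nb a b)
  set X : ℝ := (((Sf k n).filter (nb a b)).card : ℝ) with hX
  have hX0 : 0 ≤ X := Nat.cast_nonneg _
  have k4 : c0 * ε * q ^ n ≤ ε * X := by
    calc c0 * ε * q ^ n = ε * (c0 * q ^ n) := by ring
      _ ≤ ε * X := mul_le_mul_of_nonneg_left hl hε0.le
  have k5 : (1 - ε) * X ≤ ct A l s z n (nb a b) := by linarith
  have k6 : (1 - ε) * ((1 - ε) * X) ≤ (1 - ε) * ct A l s z n (nb a b) :=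
    mul_le_mul_of_nonneg_left k5 (by linarith)
  have k7 : 2 ^ Fintype.card (Tau a b) * ct A l s z n (P1E a b ep) ≤
      2 ^ Fintype.card (Tau a b) * (((Sf k n).filter (P1E a b ep)).card : ℝ) :=
    mul_le_mul_of_nonneg_left k2 (by positivity)
  have k8 : (1 - ε') * X ≤ (1 - ε) * ((1 - ε) * X) := by nlinarith
  linarith

theorem nb_split (n : ℕ) : ((Sf k n).filter (nb a b)).card =
    ∑ ep : Tau a b → ZMod 2, ((Sf k n).filter (P1E a b ep)).card := by
  rw [← card_biUnion]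
  · congr 1
    ext D
    simp only [mem_filter, mem_biUnion, mem_univ, true_and, P1E]
    constructor
    · rintro ⟨h1, h2⟩
      refine ⟨fun s => L D (QQ a b s) + gv a b s, h1, h2, fun s => ?_⟩
      have h3 : ∀ x y : ZMod 2, x + y + x + y = 0 := by decide
      exact h3 _ _
    · rintro ⟨ep, h1, h2, -⟩
      exact ⟨h1, h2⟩
  · intro e _ e' _ hne
    rw [Function.onFun, disjoint_left]
    intro D hD hD'
    apply hne
    funext s
    have h1 := (mem_filter.1 hD).2.2 s
    have h2 := (mem_filter.1 hD').2.2 s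
    have h3 : ∀ x y u v : ZMod 2, x + u + v = 0 → y + u + v = 0 → x = y := by decide
    exact h3 _ _ _ _ h1 h2

include H in
/-- **the classes have the same size** -/
theorem cnt_law (hq : 4 ≤ Fintype.card k) : Tendsto (fun n : ℕ =>
    (((Sf k n).filter (P1E a b ep)).card : ℝ) / (((Sf k n).filter (nb a b)).card : ℝ)) atTop
    (𝓝 (1 / 2 ^ Fintype.card (Tau a b))) := by
  obtain ⟨t2, ht2⟩ : ∃ t2 : ℝ, t2 = 2 ^ Fintype.card (Tau a b) := ⟨_, rfl⟩
  have ht1 : 1 ≤ t2 := by rw [ht2]; exact one_le_pow₀ (by norm_num)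
  obtain ⟨c0, hc0, hlow⟩ := nb_lower H hq
  rw [Metric.tendsto_nhds]
  intro ε' hε'
  obtain ⟨ε, hε0, hεε⟩ : ∃ ε : ℝ, 0 < ε ∧ t2 * ε < ε' := by
    refine ⟨ε' / (2 * t2), by positivity, ?_⟩
    rw [← mul_div_assoc, div_lt_iff₀ (by positivity)]
    nlinarith
  have hall : ∀ᶠ n : ℕ in atTop, ∀ ep : Tau a b → ZMod 2,
      (1 - ε) * (((Sf k n).filter (nb a b)).card : ℝ) ≤
        t2 * (((Sf k n).filter (P1E a b ep)).card : ℝ) := by
    rw [eventually_all]
    intro ep
    rw [ht2]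
    exact cnt_low H ep hq hε0
  filter_upwards [hall, hlow] with n hn hl
  set X : ℝ := (((Sf k n).filter (nb a b)).card : ℝ) with hX
  have hXp : 0 < X := by
    refine lt_of_lt_of_le ?_ hl
    have : (0 : ℝ) < (Fintype.card k : ℝ) := by exact_mod_cast Fintype.card_pos
    positivity
  have hcard : ((univ : Finset (Tau a b → ZMod 2)).card : ℝ) = t2 := by
    rw [card_univ, Fintype.card_fun, ZMod.card, ht2]
    push_cast
    rfl
  have hsum : X = ∑ e : Tau a b → ZMod 2, (((Sf k n).filter (P1E a b e)).card : ℝ) := by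
    rw [hX, nb_split]
    push_cast
    rfl
  have hlo : (1 - ε) / t2 * X ≤ (((Sf k n).filter (P1E a b ep)).card : ℝ) := by
    have := hn ep
    rw [div_mul_eq_mul_div, div_le_iff₀ (by linarith)]
    linarith
  have hhi : (((Sf k n).filter (P1E a b ep)).card : ℝ) ≤ (1 / t2 + ε) * X := by
    have h1 : ∑ e ∈ univ.erase ep, (1 - ε) / t2 * X ≤
        ∑ e ∈ univ.erase ep, (((Sf k n).filter (P1E a b e)).card : ℝ) := by
      refine sum_le_sum fun e _ => ?_
      have := hn e
      rw [div_mul_eq_mul_div, div_le_iff₀ (by linarith)]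
      linarith
    rw [sum_const, nsmul_eq_mul, card_erase_of_mem (mem_univ _)] at h1
    have h2 := hsum
    rw [← add_sum_erase univ _ (mem_univ ep)] at h2
    have h3 : ((((univ : Finset (Tau a b → ZMod 2)).card - 1 : ℕ)) : ℝ) = t2 - 1 := by
      rw [Nat.cast_sub (by rw [Nat.one_le_iff_ne_zero, ← Nat.pos_iff_ne_zero, card_pos]
                           exact ⟨ep, mem_univ _⟩), hcard, Nat.cast_one]
    rw [h3] at h1
    have h4 : (t2 - 1) * ((1 - ε) / t2 * X) = X - (1 / t2 + (t2 - 1) / t2 * ε) * X := by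
      field_simp
      ring
    rw [h4] at h1
    have h5 : (t2 - 1) / t2 ≤ 1 := by
      rw [div_le_one (by linarith)]
      linarith
    have h6 : (t2 - 1) / t2 * ε ≤ 1 * ε := mul_le_mul_of_nonneg_right h5 hε0.le
    have h7 : (1 / t2 + (t2 - 1) / t2 * ε) * X ≤ (1 / t2 + ε) * X :=
      mul_le_mul_of_nonneg_right (by linarith) hXp.le
    linarith
  rw [Real.dist_eq, ← ht2]
  have hlo' : (1 - ε) / t2 ≤ (((Sf k n).filter (P1E a b ep)).card : ℝ) / X := by
    rw [le_div_iff₀ hXp]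
    exact hlo
  have hhi' : (((Sf k n).filter (P1E a b ep)).card : ℝ) / X ≤ 1 / t2 + ε := by
    rw [div_le_iff₀ hXp]
    exact hhi
  have h8 : 1 / t2 - ε ≤ (1 - ε) / t2 := by
    rw [sub_div]
    have : ε / t2 ≤ ε := div_le_self hε0.le ht1
    linarith
  have h9 : ε ≤ t2 * ε := by nlinarith
  rw [abs_lt]
  constructor <;> linarith

end Pool.Agent.V8H26.YL
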