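import Pool.Agent.V8H26.YL.Ngb
import Pool.Agent.V8H26.XL.Sum

/-!
# The random model
-/

set_option autoImplicit false
set_option linter.all false

namespace Pool.Agent.V8H26.YL

open Module Finset Filter Topology Pool.Agent.V8H26.XL
open Pool.Agent.Y164.PS (W om om_add_left om_add_right om_comm om_self om_zero_left om_zero_right Oq ee
  om_smul_left om_smul_right eq_zero_of_om W_add_self Dat V ks dg ws dg_ws lab ks_add dg_add sg sg_add
  sg_zero sg_one abs_sg FF_split)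
open Pool.Agent.V8H64.FF (Phi phi_comm phi_add_left phi_smul_left)
open scoped Classical

section
variable {ι τ : Type} [Fintype ι] [Fintype τ] {D : DE τ} {d : ι → ZMod 2}

theorem NG_rep {S : Finset ι} {j : ι} (hj : j ∉ S) (a : Arr ι τ) :
    av (fun x : ι → ZMod 2 => ind (NG D d S (rep j 0 a) x)) =
      av (fun x : ι → ZMod 2 => ind (NG D d S a x)) := by
  rw [← av_shift (vh j (va j a)) fun x : ι → ZMod 2 => ind (NG D d S a x)]
  refine av_congr fun x => ind_congr ?_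
  apply NG_congr
  intro u hu w hw
  rw [fm_va D d j a, fm_rest D d j _ a x u w (hu j hj) (hw j hj)]

/-- **the chain** -/
theorem chain (h2t : ∀ u : W, u ≠ 0 → ∃ s, om u (D.t s) ≠ 0) {F : ℕ → ℝ} (h0 : ∀ r, 0 ≤ F r)
    (h1 : ∀ r, F r ≤ 1) (l₂ : List ι) (a : Arr ι τ) : ∀ (l₁ : List ι) (S : Finset ι) (n : ℕ),
    (l₁ ++ l₂).Nodup → (∀ j ∈ l₁ ++ l₂, j ∈ S) →
    |MM (l₁ ++ l₂) (EE D d F S n) a - MM l₂ (EE D d F (S \ l₁.toFinset) (n + 2 * l₁.length)) a| ≤
      CX * 4 ^ Fintype.card τ * 16 ^ (S.card - (l₁ ++ l₂).length) *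
        ∑ u ∈ Ico l₂.length (l₁ ++ l₂).length, (15 / 16 : ℝ) ^ u := by
  intro l₁
  induction l₁ with
  | nil =>
    intro S n _ _
    simp
  | cons j l₁ ih =>
    intro S n hnd hS
    have hnd' : (l₁ ++ l₂).Nodup := (List.nodup_cons.1 hnd).2
    have hj : j ∉ l₁ ++ l₂ := (List.nodup_cons.1 hnd).1
    have hjS : j ∈ S := hS j (by simp)
    have hS' : ∀ i ∈ l₁ ++ l₂, i ∈ S.erase j := fun i hi =>
      mem_erase.2 ⟨fun h => hj (h ▸ hi), hS i (List.mem_cons_of_mem _ hi)⟩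
    have hcard : (S.erase j).card = S.card - 1 := card_erase_of_mem hjS
    have hlen : (l₁ ++ l₂).length ≤ (S.erase j).card := by
      rw [← List.toFinset_card_of_nodup hnd']
      exact card_le_card fun i hi => hS' i (List.mem_toFinset.1 hi)
    have e1 := ih (S.erase j) (n + 2) hnd' hS'
    have e2 : |MM (l₁ ++ l₂) (Mop j (EE D d F S n)) a -
        MM (l₁ ++ l₂) (EE D d F (S.erase j) (n + 2)) a| ≤
        CX * 4 ^ Fintype.card τ * ((15 / 16) ^ (l₁ ++ l₂).length *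
          16 ^ ((S.erase j).card - (l₁ ++ l₂).length)) := by
      refine (MM_abs _ (Θ := fun a => av fun x : ι → ZMod 2 => ind (NG D d (S.erase j) a x)) ?_ a).trans
        (ng_bound h2t hnd' hS' a)
      intro b
      have h2 := step (D := D) (d := d) h0 h1 (notMem_erase j S) n b
      rw [insert_erase hjS, NG_rep (notMem_erase j S)] at h2
      exact h2
    have e3 : (S.erase j) \ l₁.toFinset = S \ (j :: l₁).toFinset := by
      ext i
      simp only [Finset.mem_sdiff, mem_erase, List.mem_toFinset, List.mem_cons]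
      tauto
    have e4 : n + 2 + 2 * l₁.length = n + 2 * (j :: l₁).length := by
      rw [List.length_cons]; ring
    have e5 : (j :: l₁ ++ l₂).length = (l₁ ++ l₂).length + 1 := by simp
    have e6 : S.card - (j :: l₁ ++ l₂).length = (S.erase j).card - (l₁ ++ l₂).length := by
      rw [e5, hcard]; omega
    rw [e3, e4] at e1
    rw [e6, e5, sum_Ico_succ_top (by simp)]
    have e7 : MM (j :: l₁ ++ l₂) (EE D d F S n) a = MM (l₁ ++ l₂) (Mop j (EE D d F S n)) a := rfl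
    rw [e7]
    have e8 : MM (l₁ ++ l₂) (Mop j (EE D d F S n)) a -
        MM l₂ (EE D d F (S \ (j :: l₁).toFinset) (n + 2 * (j :: l₁).length)) a =
        (MM (l₁ ++ l₂) (Mop j (EE D d F S n)) a -
          MM (l₁ ++ l₂) (EE D d F (S.erase j) (n + 2)) a) +
        (MM (l₁ ++ l₂) (EE D d F (S.erase j) (n + 2)) a -
          MM l₂ (EE D d F (S \ (j :: l₁).toFinset) (n + 2 * (j :: l₁).length)) a) := by ring
    rw [e8]
    refine (abs_add_le _ _).trans ?_
    rw [mul_add]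
    have e9 : (CX : ℝ) * 4 ^ Fintype.card τ * ((15 / 16) ^ (l₁ ++ l₂).length *
        16 ^ ((S.erase j).card - (l₁ ++ l₂).length)) =
        CX * 4 ^ Fintype.card τ * 16 ^ ((S.erase j).card - (l₁ ++ l₂).length) *
          (15 / 16) ^ (l₁ ++ l₂).length := by ring
    rw [e9] at e2
    linarith

variable (D) in
/-- the number of the bad primes with split reduction -/
noncomputable def sp : ℕ := (univ.filter fun s => D.ep s = 0).card

theorem sum_ep : ∑ s, (1 + D.ep s) = (sp D : ZMod 2) := by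
  rw [sp, card_filter]
  push_cast
  refine sum_congr rfl fun s _ => ?_
  rcases F2c (D.ep s) with h | h
  · rw [h, if_pos rfl, add_zero]
  · rw [h, if_neg one_ne_zero]
    exact F2s 1

theorem fm_ws (a : Arr ι τ) (x : ι → ZMod 2) :
    fm D d a x ws ws = (Fintype.card τ : ZMod 2) + (sp D : ZMod 2) := by
  rw [fm_eq, XL.fm_ws, dt_apply, ← sum_ep]
  congr 1
  refine sum_congr rfl fun s _ => ?_
  have h : (ws : V ι τ).2 s = 1 := rfl
  rw [h, mul_one, mul_one]

theorem rho_par (hτ : Nonempty τ) (a : Arr ι τ) (x : ι → ZMod 2) (S : Finset ι) :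
    Even (rho (fm D d a x) (VS S) + sp D) := by
  have h1 := parity (fm_symm D d a x) (fm_diag D d a x) (ws_ne hτ) (VS S) (ws_mem S)
  rw [finrank_VS, fm_ws, ← Nat.cast_add, ZMod.natCast_eq_zero_iff_even] at h1
  have h2 : Even (2 * S.card) := ⟨S.card, by ring⟩
  simp only [Nat.even_add] at h1 ⊢
  tauto

theorem rho_mod (hτ : Nonempty τ) (a : Arr ι τ) (x : ι → ZMod 2) (S : Finset ι) :
    rho (fm D d a x) (VS S) % 2 = sp D % 2 := by
  have h := rho_par (D := D) (d := d) hτ a x S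
  rw [Nat.even_iff] at h
  omega

theorem rho_le (a : Arr ι τ) (x : ι → ZMod 2) (S : Finset ι) :
    rho (fm D d a x) (VS S) ≤ 2 * S.card + Fintype.card τ := by
  rw [← finrank_VS]
  exact Submodule.finrank_mono fun u hu => hu.1

/-- convergence -/
def Cvp (p : ℕ) (F : ℕ → ℝ) (c : ℝ) : Prop := ∀ ε : ℝ, 0 < ε → ∃ k₀ : ℕ, ∀ t s : ℕ, 4 * s + k₀ ≤ t →
    |gg F (2 * t) (2 * s + p) - c| ≤ ε

theorem EE_lim (hτ : Nonempty τ) {F : ℕ → ℝ} {c ε : ℝ} {k₀ : ℕ}
    (hk : ∀ t s : ℕ, 4 * s + k₀ ≤ t → |gg F (2 * t) (2 * s + sp D % 2) - c| ≤ ε) (S : Finset ι) {t : ℕ}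
    (ht : 4 * (S.card + Fintype.card τ) + k₀ ≤ t) (a : Arr ι τ) : |EE D d F S (2 * t) a - c| ≤ ε := by
  have h1 : EE D d F S (2 * t) a - c =
      av fun x : ι → ZMod 2 => gg F (2 * t) (rho (fm D d a x) (VS S)) - c := by
    rw [av_sub, av_const]
    rfl
  rw [h1]
  refine (abs_av_le (g := fun _ => ε) fun x => ?_).trans (le_of_eq (av_const ε))
  have hs := rho_mod (D := D) (d := d) hτ a x S
  have h2 := rho_le (D := D) (d := d) a x S
  have h3 : rho (fm D d a x) (VS S) = 2 * (rho (fm D d a x) (VS S) / 2) + sp D % 2 := by omega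
  rw [h3]
  exact hk t _ (by omega)

/-- **the random model** -/
theorem model (h2t : ∀ u : W, u ≠ 0 → ∃ s, om u (D.t s) ≠ 0) {F : ℕ → ℝ} {c : ℝ}
    (h0 : ∀ r, 0 ≤ F r) (h1 : ∀ r, F r ≤ 1) (hc : Cvp (sp D % 2) F c) {ε : ℝ} (hε : 0 < ε) :
    ∃ K : ℕ, ∀ (ι : Type) [Fintype ι] (d : ι → ZMod 2) (S : Finset ι) (l : List ι), l.Nodup →
      (∀ j ∈ l, j ∈ S) → 254 * (S.card - l.length) + K ≤ l.length →
      ∀ a : Arr ι τ, |MM l (EE D d F S 0) a - c| ≤ ε := by
  have hτ : Nonempty τ := by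
    obtain ⟨s, -⟩ := h2t (1, 0) (by decide)
    exact ⟨s⟩
  obtain ⟨k₀, hk⟩ := hc (ε / 2) (by positivity)
  have h3 : Tendsto (fun K : ℕ => (CX : ℝ) * 4 ^ Fintype.card τ * 16 * (15 / 16) ^ K) atTop (𝓝 0) := by
    have := (tendsto_pow_atTop_nhds_zero_of_lt_one (r := (15 / 16 : ℝ)) (by norm_num)
      (by norm_num)).const_mul ((CX : ℝ) * 4 ^ Fintype.card τ * 16)
    rw [mul_zero] at this
    exact this
  obtain ⟨K₁, hK₁⟩ := (h3.eventually_le_const (show (0 : ℝ) < ε / 2 by positivity)).exists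
  refine ⟨5 * K₁ + 4 * Fintype.card τ + k₀, fun ι _ d S l hnd hS hlen a => ?_⟩
  set s := S.card - l.length with hs
  have hle : l.length ≤ S.card := by
    rw [← List.toFinset_card_of_nodup hnd]
    exact card_le_card fun i hi => hS i (List.mem_toFinset.1 hi)
  set r₀ := 50 * s + K₁ with hr₀
  set t := l.length - r₀ with ht
  set l₁ := l.take t with hl₁
  set l₂ := l.drop t with hl₂
  have hl : l₁ ++ l₂ = l := List.take_append_drop t l
  have hlen₁ : l₁.length = t := by rw [hl₁, List.length_take]; omega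
  have hlen₂ : l₂.length = r₀ := by rw [hl₂, List.length_drop]; omega
  have e1 := chain (d := d) h2t h0 h1 l₂ a l₁ S 0 (by rw [hl]; exact hnd) (by rw [hl]; exact hS)
  rw [hl, zero_add, hlen₁, hlen₂] at e1
  have hcard : (S \ l₁.toFinset).card = s + r₀ := by
    have h4 : l₁.toFinset ⊆ S := fun i hi => hS i (by
      rw [← hl]
      exact List.mem_append_left _ (List.mem_toFinset.1 hi))
    have h5 : l₁.Nodup := by
      rw [← hl] at hnd
      exact hnd.of_append_left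
    rw [card_sdiff_of_subset h4, List.toFinset_card_of_nodup h5, hlen₁]
    omega
  have e2 : |MM l₂ (EE D d F (S \ l₁.toFinset) (2 * t)) a - c| ≤ ε / 2 := by
    have h6 := MM_abs l₂ (Φ := EE D d F (S \ l₁.toFinset) (2 * t)) (Ψ := fun _ => c)
      (Θ := fun _ => ε / 2) (fun b => EE_lim hτ hk _ (by rw [hcard]; omega) b) a
    rw [MM_const, MM_const] at h6
    exact h6
  have e3 : (CX : ℝ) * 4 ^ Fintype.card τ * 16 ^ s * ∑ u ∈ Ico r₀ l.length, (15 / 16 : ℝ) ^ u ≤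
      ε / 2 := by
    refine le_trans ?_ hK₁
    have h6 := geo_le r₀ l.length
    have h7 : (16 : ℝ) ^ s * (15 / 16) ^ (50 * s) ≤ 1 := by
      rw [pow_mul, ← mul_pow]
      exact pow_le_one₀ (by norm_num) pow50
    have h8 : (0 : ℝ) ≤ CX * 4 ^ Fintype.card τ := by positivity
    calc (CX : ℝ) * 4 ^ Fintype.card τ * 16 ^ s * ∑ u ∈ Ico r₀ l.length, (15 / 16 : ℝ) ^ u ≤
        CX * 4 ^ Fintype.card τ * 16 ^ s * (16 * (15 / 16) ^ r₀) :=
          mul_le_mul_of_nonneg_left h6 (by positivity)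
      _ = CX * 4 ^ Fintype.card τ * 16 * (15 / 16) ^ K₁ * (16 ^ s * (15 / 16) ^ (50 * s)) := by
          rw [hr₀, pow_add]; ring
      _ ≤ CX * 4 ^ Fintype.card τ * 16 * (15 / 16) ^ K₁ * 1 :=
          mul_le_mul_of_nonneg_left h7 (by positivity)
      _ = _ := mul_one _
  have e4 : MM l (EE D d F S 0) a - c =
      (MM l (EE D d F S 0) a - MM l₂ (EE D d F (S \ l₁.toFinset) (2 * t)) a) +
      (MM l₂ (EE D d F (S \ l₁.toFinset) (2 * t)) a - c) := by ring
  rw [e4]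
  refine (abs_add_le _ _).trans ?_
  have e5 := e1.trans e3
  linarith

end

/-! ### The limit laws -/

/-- the limit law -/
noncomputable def be (r : ℕ) : ℝ := pi' r * cc

theorem odd_start (f : ℕ) {ε : ℝ} (hε : 0 < ε) : ∃ k₀ : ℕ, ∀ t : ℕ, k₀ ≤ t →
    |gg (Fe (2 * f + 1)) (2 * t + 1) 0 - be (2 * f + 1)| ≤ ε := by
  have hp := pi'_pos (2 * f + 1)
  obtain ⟨k₀, hk⟩ := gg_lim (ε := ε / pi' (2 * f + 1)) (div_pos hε hp)
  refine ⟨f + 1 + k₀, fun t ht => ?_⟩
  rw [gg_rev, be, Fe_zero, ← mul_sub, abs_mul, abs_of_pos hp, gg_succ]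
  have h1 := hk t f (by omega)
  have h2 := hk t (f + 1) (by omega)
  have e1 : 2 * f + 1 - 1 = 2 * f := by omega
  have e2 : 2 * f + 1 + 1 = 2 * (f + 1) := by ring
  rw [e1, e2]
  set x : ℝ := (1 / 2) ^ (2 * f + 1) with hx
  have hx0 : 0 ≤ x := half_pow_nonneg _
  have hx1 : x ≤ 1 := half_pow_le _
  have e3 : (1 - x) * gg F0 (2 * t) (2 * f) + x * gg F0 (2 * t) (2 * (f + 1)) - cc =
      (1 - x) * (gg F0 (2 * t) (2 * f) - cc) + x * (gg F0 (2 * t) (2 * (f + 1)) - cc) := by ring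
  have h3 : |(1 - x) * gg F0 (2 * t) (2 * f) + x * gg F0 (2 * t) (2 * (f + 1)) - cc| ≤
      ε / pi' (2 * f + 1) := by
    rw [e3]
    refine (abs_add_le _ _).trans ?_
    rw [abs_mul, abs_mul, abs_of_nonneg hx0, abs_of_nonneg (sub_nonneg.2 hx1)]
    have j1 := mul_le_mul_of_nonneg_left h1 (sub_nonneg.2 hx1)
    have j2 := mul_le_mul_of_nonneg_left h2 hx0
    linarith
  rw [le_div_iff₀ hp] at h3
  linarith

theorem Cvp_zero {F : ℕ → ℝ} {c : ℝ} (h : Cv F c) : Cvp 0 F c := h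

theorem Cvp_one {F : ℕ → ℝ} {c : ℝ} (h0 : ∀ r, 0 ≤ F r) (h1 : ∀ r, F r ≤ 1) (hc0 : 0 ≤ c)
    (hc1 : c ≤ 1) (h : ∀ ε : ℝ, 0 < ε → ∃ k₀ : ℕ, ∀ t : ℕ, k₀ ≤ t →
      |gg F (2 * t + 1) 0 - c| ≤ ε) : Cvp 1 F c := by
  intro ε hε
  obtain ⟨N₁, hN⟩ := h (ε / 2) (by positivity)
  have h3 : Tendsto (fun K : ℕ => (7 / 8 : ℝ) ^ K) atTop (𝓝 0) :=
    tendsto_pow_atTop_nhds_zero_of_lt_one (by norm_num) (by norm_num)
  obtain ⟨K, hK⟩ := (h3.eventually_le_const (show (0 : ℝ) < ε / 4 by positivity)).exists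
  refine ⟨N₁ + K + 1, fun t s hst => ?_⟩
  have hN' : ∀ t : ℕ, N₁ ≤ t → |gg (gg F 1) (2 * t) 0 - c| ≤ ε / 2 := by
    intro t ht
    rw [← gg_comp]
    exact hN t ht
  have h4 := hit (fun r => (gg_bd h0 h1 1 r).1) (fun r => (gg_bd h0 h1 1 r).2) hc0 hc1
    (show (0 : ℝ) < ε / 2 by positivity) hN' (2 * (t - N₁ - 1) + 1) (2 * s + 1)
    ⟨t - N₁ - 1 + s + 1, by ring⟩
  rw [← gg_comp] at h4
  have e1 : 2 * (t - N₁ - 1) + 1 + 2 * N₁ + 1 = 2 * t := by omega
  rw [e1, if_neg (by omega)] at h4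
  refine h4.trans ?_
  have h5 : (7 / 8 : ℝ) ^ (2 * (t - N₁ - 1) + 1) * (3 / 2) ^ (2 * s + 1) ≤ 2 * (7 / 8) ^ K := by
    have h6 : (7 / 8 : ℝ) ^ (2 * (t - N₁ - 1) + 1) ≤ (7 / 8) ^ (8 * s + K) :=
      pow_le_pow_of_le_one (by norm_num) (by norm_num) (by omega)
    calc (7 / 8 : ℝ) ^ (2 * (t - N₁ - 1) + 1) * (3 / 2) ^ (2 * s + 1) ≤
        (7 / 8) ^ (8 * s + K) * (3 / 2) ^ (2 * s + 1) :=
          mul_le_mul_of_nonneg_right h6 (by positivity)
      _ = 3 / 2 * ((7 / 8) ^ K * (((7 / 8) ^ 8) * (3 / 2) ^ 2) ^ s) := by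
          rw [pow_add, pow_mul, pow_succ (3 / 2 : ℝ) (2 * s), pow_mul, mul_pow]; ring
      _ ≤ 3 / 2 * ((7 / 8) ^ K * 1) := by
          apply mul_le_mul_of_nonneg_left _ (by norm_num)
          apply mul_le_mul_of_nonneg_left _ (by positivity)
          exact pow_le_one₀ (by norm_num) (by norm_num)
      _ ≤ _ := by
          have : (0 : ℝ) ≤ (7 / 8) ^ K := by positivity
          linarith
  linarith

theorem be_even (d : ℕ) : be (2 * d) = al d := rfl

theorem be_mem (r : ℕ) : 0 ≤ be r ∧ be r ≤ 1 := by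
  rcases Nat.even_or_odd r with ⟨d, hd⟩ | ⟨d, hd⟩
  · have e : r = 2 * d := by omega
    rw [e, be_even]
    exact al_mem d
  · subst hd
    have key : ∀ ε : ℝ, 0 < ε → -ε ≤ be (2 * d + 1) ∧ be (2 * d + 1) ≤ 1 + ε := by
      intro ε hε
      obtain ⟨k₀, hk⟩ := odd_start d hε
      have h1 := hk k₀ le_rfl
      have h2 := gg_bd (Fe_nonneg (2 * d + 1)) (Fe_le (2 * d + 1)) (2 * k₀ + 1) 0
      rw [abs_le] at h1
      constructor <;> linarith [h1.1, h1.2, h2.1, h2.2]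
    constructor
    · by_contra h
      push Not at h
      have := (key (-be (2 * d + 1) / 2) (by linarith)).1
      linarith
    · by_contra h
      push Not at h
      have := (key ((be (2 * d + 1) - 1) / 2) (by linarith)).2
      linarith

/-- **uniform convergence to the limit laws** -/
theorem Cvp_Fe (r : ℕ) : Cvp (r % 2) (Fe r) (be r) := by
  rcases Nat.even_or_odd r with ⟨d, hd⟩ | ⟨d, hd⟩
  · have e : r = 2 * d := by omega
    have e2 : r % 2 = 0 := by omega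
    rw [e2, e, be_even]
    exact Cvp_zero (Cv_Fe d)
  · have e2 : r % 2 = 1 := by omega
    rw [e2, hd]
    exact Cvp_one (Fe_nonneg _) (Fe_le _) (be_mem _).1 (be_mem _).2 fun ε hε => odd_start d hε

end Pool.Agent.V8H26.YL
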