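import Pool.Agent.V8H26.XL.Stp

/-!
# Forms with signs at the bad primes
-/

set_option autoImplicit false
set_option linter.all false

namespace Pool.Agent.V8H26.YL

open Module Finset Pool.Agent.V8H26.XL
open Pool.Agent.Y164.PS (W om om_add_left om_add_right om_comm om_self om_zero_left om_zero_right Oq ee
  om_smul_left om_smul_right eq_zero_of_om W_add_self Dat V ks dg ws dg_ws lab ks_add dg_add sg sg_add
  sg_zero sg_one abs_sg FF_split)
open Pool.Agent.V8H64.FF (Phi phi_comm phi_add_left phi_smul_left)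
open scoped Classical

/-- the data with signs: `ep s = 1` at the bad primes with non-split reduction -/
structure DE (τ : Type) [Fintype τ] extends Dat τ where
  ep : τ → ZMod 2
  hep : ∀ s, t s = 0 → ep s = 1

instance {τ : Type} [Fintype τ] : Coe (DE τ) (Dat τ) := ⟨DE.toDat⟩

section
variable {ι τ : Type} [Fintype ι] [Fintype τ] (D : DE τ) (d : ι → ZMod 2)

/-- the diagonal term -/
noncomputable def dt : LinearMap.BilinForm (ZMod 2) (V ι τ) :=
  LinearMap.mk₂ (ZMod 2) (fun w w' => ∑ s, (1 + D.ep s) * (w.2 s * w'.2 s))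
    (fun u w w' => by
      rw [← sum_add_distrib]
      refine sum_congr rfl fun s _ => ?_
      rw [Prod.snd_add, Pi.add_apply]
      ring)
    (fun c u w => by
      rw [smul_eq_mul, mul_sum]
      refine sum_congr rfl fun s _ => ?_
      rw [Prod.smul_snd, Pi.smul_apply, smul_eq_mul]
      ring)
    (fun u w w' => by
      rw [← sum_add_distrib]
      refine sum_congr rfl fun s _ => ?_
      rw [Prod.snd_add, Pi.add_apply]
      ring)
    (fun c u w => by
      rw [smul_eq_mul, mul_sum]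
      refine sum_congr rfl fun s _ => ?_
      rw [Prod.smul_snd, Pi.smul_apply, smul_eq_mul]
      ring)

theorem dt_apply (w w' : V ι τ) : dt D w w' = ∑ s, (1 + D.ep s) * (w.2 s * w'.2 s) := rfl

theorem dt_comm (w w' : V ι τ) : dt D w w' = dt D w' w := by
  rw [dt_apply, dt_apply]
  exact sum_congr rfl fun s _ => by ring

theorem dt_vj (w : V ι τ) (j : ι) (y : W) : dt D w (vj j y) = 0 := by
  rw [dt_apply]
  exact sum_eq_zero fun s _ => by rw [vj_snd, mul_zero, mul_zero]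

theorem dt_diag (w : V ι τ) : dt D w w = dt D w ws := by
  rw [dt_apply, dt_apply]
  refine sum_congr rfl fun s _ => ?_
  have h : (ws : V ι τ).2 s = 1 := rfl
  have h2 : ∀ x : ZMod 2, x * x = x * 1 := by decide
  rw [h, h2]

/-- the form of an array -/
noncomputable def fm (a : Arr ι τ) (x : ι → ZMod 2) : LinearMap.BilinForm (ZMod 2) (V ι τ) :=
  XL.fm D d a x + dt D

theorem fm_eq (a : Arr ι τ) (x : ι → ZMod 2) (w w' : V ι τ) :
    fm D d a x w w' = XL.fm D d a x w w' + dt D w w' := rfl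

theorem fm_symm (a : Arr ι τ) (x : ι → ZMod 2) (w w' : V ι τ) :
    fm D d a x w w' = fm D d a x w' w := by
  rw [fm_eq, fm_eq, XL.fm_symm, dt_comm]

theorem fm_rep (j : ι) (v : ι ⊕ τ → ZMod 2) (a : Arr ι τ) (x : ι → ZMod 2) (w w' : V ι τ) :
    fm D d (rep j v a) x w w' = fm D d (rep j 0 a) x w w' + ∑ y, co D j w w' y * v y := by
  rw [fm_eq, fm_eq, XL.fm_rep]
  ring

theorem fm_x (a : Arr ι τ) (x x' : ι → ZMod 2) (w w' : V ι τ) :
    fm D d a (x + x') w w' = fm D d a x w w' + ∑ i, x' i * om (w.1 i) (w'.1 i) := by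
  rw [fm_eq, fm_eq, XL.fm_x]
  ring

theorem fm_xj (a : Arr ι τ) (x : ι → ZMod 2) (j : ι) (w w' : V ι τ) :
    fm D d a (x + Pi.single j 1) w w' = fm D d a x w w' + om (w.1 j) (w'.1 j) := by
  rw [fm_eq, fm_eq, XL.fm_xj]
  ring

theorem fm_rest (j : ι) (v : ι ⊕ τ → ZMod 2) (a : Arr ι τ) (x : ι → ZMod 2) (w w' : V ι τ)
    (h : w.1 j = 0) (h' : w'.1 j = 0) :
    fm D d (rep j v a) (x + vh j v) w w' = fm D d (rep j 0 a) x w w' := by
  rw [fm_eq, fm_eq, XL.fm_rest _ d j v a x w w' h h']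

theorem fm_new (j : ι) (v : ι ⊕ τ → ZMod 2) (a : Arr ι τ) (x : ι → ZMod 2) (w : V ι τ) (y : W)
    (h : w.1 j = 0) : fm D d (rep j v a) x w (vj j y) =
      ∑ z, co D j w (vj j y) z * v z + d j * om (ks D.l (dg D d w)) y := by
  rw [fm_eq, XL.fm_new _ d j v a x w y h, dt_vj, add_zero]

theorem fm_diag (a : Arr ι τ) (x : ι → ZMod 2) (w : V ι τ) :
    fm D d a x w w = fm D d a x w ws := by
  rw [fm_eq, fm_eq, XL.fm_diag, dt_diag]

theorem fm_va (j : ι) (a : Arr ι τ) (x : ι → ZMod 2) (w w' : V ι τ) :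
    fm D d a x w w' = fm D d (rep j (va j a) a) x w w' := by
  rw [fm_eq, fm_eq, XL.fm_va _ d j a]

theorem fm_self (j : ι) (a : Arr ι τ) (x : ι → ZMod 2) (w w' : V ι τ) :
    fm D d a x w w' = fm D d (rep j 0 a) x w w' + ∑ y, co D j w w' y * va j a y := by
  rw [fm_va D d j a, fm_rep D d j (va j a) a]

/-- the expected value -/
noncomputable def EE (F : ℕ → ℝ) (S : Finset ι) (n : ℕ) (a : Arr ι τ) : ℝ :=
  av fun x : ι → ZMod 2 => gg F n (rho (fm D d a x) (VS S))

theorem EE_rep (F : ℕ → ℝ) {S : Finset ι} {j : ι} (hj : j ∉ S) (n : ℕ) (v : ι ⊕ τ → ZMod 2)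
    (a : Arr ι τ) : EE D d F S n (rep j v a) = EE D d F S n (rep j 0 a) := by
  rw [EE, EE, ← av_shift (vh j v)]
  refine av_congr fun x => ?_
  congr 1
  apply rho_congr
  intro u hu w hw
  exact fm_rest D d j v a x u w (hu j hj) (hw j hj)

theorem EE_self (F : ℕ → ℝ) {S : Finset ι} {j : ι} (hj : j ∉ S) (n : ℕ) (a : Arr ι τ) :
    EE D d F S n a = EE D d F S n (rep j 0 a) := by
  rw [← EE_rep D d F hj n (va j a) a, EE, EE]
  refine av_congr fun x => ?_
  congr 1
  apply rho_congr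
  intro u hu w hw
  exact fm_va D d j a x u w

/-- the kernel is not generic -/
def NG (S : Finset ι) (a : Arr ι τ) (x : ι → ZMod 2) : Prop :=
  ∃ κ₁ ∈ kr (fm D d a x) (VS S), ∃ κ₂ ∈ kr (fm D d a x) (VS S), Rel D κ₁ κ₂

theorem NG_congr {S : Finset ι} {a a' : Arr ι τ} {x x' : ι → ZMod 2}
    (h : ∀ u ∈ VS (τ := τ) S, ∀ w ∈ VS S, fm D d a x u w = fm D d a' x' u w) :
    NG D d S a x ↔ NG D d S a' x' := by
  rw [NG, NG, kr_congr h]

end

end Pool.Agent.V8H26.YL
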