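import Pool.Agent.V8H26.YL.Lvl
import Pool.Agent.V8H26.XL.Man
import Pool.Agent.Y164.PS.Main

/-!
# The law of the dimension of the kernel
-/

set_option autoImplicit false
set_option linter.all false

namespace Pool.Agent.V8H26.YL

open Finset Polynomial Pool.Agent.H341R2.Sharp Filter Topology
open Pool.Agent.V8H26.XL (Arr MM MM_const Fe Fe_nonneg Fe_le dm arr F2s params' ct ct_eq ct_le le_ct tp)
open Pool.Agent.Y164.PS
open scoped Classical

variable {k : Type} [Field k] [Fintype k] [DecidableEq k]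
variable {a b : k[X]} {N : ℕ} (H : Hyp a b N) {ep : Tau a b → ZMod 2}
  (hep : ∀ s, tv a b s = 0 → ep s = 1)

include H in
/-- the main theorem, on the level of the class -/
theorem main_law (hq : 4 ≤ Fintype.card k)
    (h2t : ∀ u : W, u ≠ 0 → ∃ s, om u ((datum H).t s) ≠ 0) :
    (∃ c : ℝ, 0 < c ∧ ∀ᶠ n : ℕ in atTop, (n : F2) + (N : F2) = 1 →
      c * (Fintype.card k : ℝ) ^ n ≤ (((Sf k n).filter (P1E a b ep)).card : ℝ)) ∧
    ∀ (r : ℕ) (G : k[X] → Prop) (α : ℝ), 0 ≤ α → α ≤ 1 → Cvp (sp (dE H hep) % 2) (Fe r) α →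
      (Imp1 H hep r G → ∀ ε : ℝ, 0 < ε → ∀ᶠ n : ℕ in atTop, (n : F2) + (N : F2) = 1 →
        (α - ε) * (((Sf k n).filter (P1E a b ep)).card : ℝ) ≤
          (((Sf k n).filter (P2E G a b ep)).card : ℝ)) ∧
      (Imp2 H hep r G → ∀ ε : ℝ, 0 < ε → ∀ᶠ n : ℕ in atTop, (n : F2) + (N : F2) = 1 →
        (((Sf k n).filter (P2E G a b ep)).card : ℝ) ≤
          (α + ε) * (((Sf k n).filter (P1E a b ep)).card : ℝ)) := by
  set q : ℝ := (Fintype.card k : ℝ) with hqd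
  have hq4 : (4 : ℝ) ≤ q := by rw [hqd]; exact_mod_cast hq
  obtain ⟨t2, ht2⟩ : ∃ t2 : ℝ, t2 = 2 ^ Fintype.card (Tau a b) := ⟨_, rfl⟩
  have ht2p : 0 < t2 := by rw [ht2]; exact pow_pos (by norm_num) _
  have step : ∀ (r : ℕ) (G : k[X] → Prop) (α : ℝ), 0 ≤ α → α ≤ 1 → Cvp (sp (dE H hep) % 2) (Fe r) α →
      ∀ δ : ℝ, 0 < δ → ∀ ε : ℝ, 0 < ε → ε ≤ 1 / 10 → ∀ᶠ n : ℕ in atTop,
      (n : F2) + (N : F2) = 1 → ∃ x y g : ℝ, 0 ≤ x ∧ x ≤ (((Sf k n).filter (P1E a b ep)).card : ℝ) ∧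
        (((Sf k n).filter (P1E a b ep)).card : ℝ) ≤ x + δ * q ^ n ∧
        (Imp1 H hep r G → (α - 4 * ε) * x ≤ (((Sf k n).filter (P2E G a b ep)).card : ℝ)) ∧
        (Imp2 H hep r G → (((Sf k n).filter (P2E G a b ep)).card : ℝ) ≤ (α + 4 * ε) * x + δ * q ^ n) ∧
        (1 - ε) * y ≤ t2 * x ∧ (((Sf k n).filter (nb a b)).card : ℝ) ≤ y + δ * q ^ n := by
    intro r G α hα0 hα1 hcv δ hδ ε hε hε1
    obtain ⟨K, hK⟩ := model_cl (D := dE H hep) h2t (Fe_nonneg r) (Fe_le r) hcv hε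
    obtain ⟨A, hA⟩ := params' (k := k) H.hk a b δ hδ
    filter_upwards [hA ε K hε] with n hn hodd
    obtain ⟨l, s, z, h2, h3, h4, h5⟩ := hn
    have key : ∀ m ∈ Icc (7 * (l / 25)) (A * l), _ := fun m hm =>
      lvl_law H hep (G := G) hq hα0 hα1 (n := n) (m := m) (z := z) (s := s) hodd h2 hε
        (by linarith) hK (by
          have := (mem_Icc.1 hm).1
          omega) (h4 m (mem_Icc.1 hm).2)
    refine ⟨ct A l s z n (P1E a b ep), ct A l s z n (nb a b), 0, ?_, ct_le _ _ _ _ _ _, ?_, fun hG => ?_,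
      fun hG => ?_, ?_, ?_⟩
    · rw [ct]; exact Nat.cast_nonneg _
    · refine (le_ct A l s z n (P1E a b ep)).trans ?_
      linarith
    · refine le_trans ?_ (ct_le A l s z n (P2E G a b ep))
      rw [ct_eq, ct_eq, mul_sum]
      exact sum_le_sum fun m hm => (key m hm).1 hG
    · refine (le_ct A l s z n (P2E G a b ep)).trans (add_le_add ?_ h5)
      rw [ct_eq, ct_eq, mul_sum]
      exact sum_le_sum fun m hm => (key m hm).2.1 hG
    · rw [ht2, ct_eq, ct_eq, mul_sum, mul_sum]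
      exact sum_le_sum fun m hm => (key m hm).2.2
    · refine (le_ct A l s z n (nb a b)).trans ?_
      linarith
  obtain ⟨c0, hc0, hlow⟩ := nb_lower H hq
  have first : ∃ c : ℝ, 0 < c ∧ ∀ᶠ n : ℕ in atTop, (n : F2) + (N : F2) = 1 →
      c * q ^ n ≤ (((Sf k n).filter (P1E a b ep)).card : ℝ) := by
    refine ⟨c0 / (4 * t2), by positivity, ?_⟩
    filter_upwards [hlow, step (sp (dE H hep) % 2) (fun _ => True) (be (sp (dE H hep) % 2)) (be_mem _).1 (be_mem _).2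
      (by
        have h := Cvp_Fe (sp (dE H hep) % 2)
        rw [Nat.mod_mod] at h
        exact h)
      (c0 / 2) (by positivity) (1 / 10) (by norm_num) le_rfl] with n e1 e2 hodd
    obtain ⟨x, y, w, g0, g1, g2, g3, g3', g4, g5⟩ := e2 hodd
    refine le_trans ?_ g1
    rw [div_mul_eq_mul_div, div_le_iff₀ (by positivity)]
    have : c0 * q ^ n ≤ y + c0 / 2 * q ^ n := e1.trans g5
    have hqn : 0 < c0 * q ^ n := by positivity
    nlinarith
  refine ⟨first, ?_⟩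
  obtain ⟨c, hc, hc'⟩ := first
  intro r G α hα0 hα1 hcv
  constructor
  · intro hG ε' hε'
    obtain ⟨ε, hε0, hε1, hεε⟩ : ∃ ε : ℝ, 0 < ε ∧ ε ≤ 1 / 10 ∧ ε ≤ ε' :=
      ⟨min (1 / 10) ε', lt_min (by norm_num) hε', min_le_left _ _, min_le_right _ _⟩
    filter_upwards [hc', step r G α hα0 hα1 hcv (c * (ε / 8)) (by positivity) (ε / 8)
      (by positivity) (by linarith)] with n e1 e2 hodd
    obtain ⟨x, y, w, g0, g1, g2, g3, g3', g4, g5⟩ := e2 hodd
    have h1 := e1 hodd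
    have h2 := g3 hG
    set Y : ℝ := (((Sf k n).filter (P1E a b ep)).card : ℝ) with hY
    have hY0 : 0 ≤ Y := Nat.cast_nonneg _
    have h3 : c * (ε / 8) * q ^ n ≤ ε / 8 * Y := by
      calc c * (ε / 8) * q ^ n = ε / 8 * (c * q ^ n) := by ring
        _ ≤ ε / 8 * Y := mul_le_mul_of_nonneg_left h1 (by positivity)
    have h4 : (α - ε) * Y ≤ (α - 4 * (ε / 8)) * x := by
      have h5 : α * (Y - x) ≤ 1 * (Y - x) := mul_le_mul_of_nonneg_right hα1 (by linarith)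
      have h6 : ε * x ≤ ε * Y := mul_le_mul_of_nonneg_left g1 hε0.le
      nlinarith
    have h5 : (α - ε') * Y ≤ (α - ε) * Y := mul_le_mul_of_nonneg_right (by linarith) hY0
    linarith
  · intro hG ε' hε'
    obtain ⟨ε, hε0, hε1, hεε⟩ : ∃ ε : ℝ, 0 < ε ∧ ε ≤ 1 / 10 ∧ ε ≤ ε' :=
      ⟨min (1 / 10) ε', lt_min (by norm_num) hε', min_le_left _ _, min_le_right _ _⟩
    filter_upwards [hc', step r G α hα0 hα1 hcv (c * (ε / 8)) (by positivity) (ε / 8)
      (by positivity) (by linarith)] with n e1 e2 hodd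
    obtain ⟨x, y, w, g0, g1, g2, g3, g3', g4, g5⟩ := e2 hodd
    have h1 := e1 hodd
    have h2 := g3' hG
    set Y : ℝ := (((Sf k n).filter (P1E a b ep)).card : ℝ) with hY
    have hY0 : 0 ≤ Y := Nat.cast_nonneg _
    have h3 : c * (ε / 8) * q ^ n ≤ ε / 8 * Y := by
      calc c * (ε / 8) * q ^ n = ε / 8 * (c * q ^ n) := by ring
        _ ≤ ε / 8 * Y := mul_le_mul_of_nonneg_left h1 (by positivity)
    have h4 : (α + 4 * (ε / 8)) * x ≤ (α + 4 * (ε / 8)) * Y :=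
      mul_le_mul_of_nonneg_left g1 (by positivity)
    have h5 : (α + ε) * Y ≤ (α + ε') * Y := mul_le_mul_of_nonneg_right (by linarith) hY0
    have h6 : 0 ≤ ε * Y := by positivity
    linarith

end Pool.Agent.V8H26.YL
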