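import Pool.Agent.V8H26.YL.Stp
import Pool.Agent.V8H26.XL.Ngb

/-!
# Kernels are generic with high probability
-/

set_option autoImplicit false
set_option linter.all false

namespace Pool.Agent.V8H26.YL

open Module Finset Pool.Agent.V8H26.XL
open Pool.Agent.Y164.PS (W om om_add_left om_add_right om_comm om_self om_zero_left om_zero_right Oq ee
  om_smul_left om_smul_right eq_zero_of_om W_add_self Dat V ks dg ws dg_ws lab ks_add dg_add sg sg_add
  sg_zero sg_one abs_sg FF_split)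
open Pool.Agent.V8H64.FF (Phi phi_comm phi_add_left phi_smul_left)
open scoped Classical

section
variable {ι τ : Type} [Fintype ι] [Fintype τ]

variable (D : DE τ) (d : ι → ZMod 2)

/-- the value of two pairs -/
noncomputable def Lf (c : (V ι τ × V ι τ) × (V ι τ × V ι τ)) (a : Arr ι τ) (x : ι → ZMod 2) : ZMod 2 :=
  fm D d a x c.1.1 c.2.1 + fm D d a x c.1.2 c.2.2

variable {D d}

theorem Lf_rep (c : (V ι τ × V ι τ) × (V ι τ × V ι τ)) (j : ι) (v : ι ⊕ τ → ZMod 2) (a : Arr ι τ)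
    (x : ι → ZMod 2) : Lf D d c (rep j v a) x = Lf D d c (rep j 0 a) x + ∑ y, cj D.toDat c j y * v y := by
  rw [Lf, Lf, fm_rep, fm_rep D d j v a x c.1.2 c.2.2]
  simp only [cj, add_mul, sum_add_distrib]
  ring

theorem Lf_self (c : (V ι τ × V ι τ) × (V ι τ × V ι τ)) (j : ι) (a : Arr ι τ)
    (x : ι → ZMod 2) (h : cj D.toDat c j = 0) : Lf D d c a x = Lf D d c (rep j 0 a) x := by
  have h1 : Lf D d c a x = Lf D d c (rep j 0 a) x + ∑ y, cj D.toDat c j y * va j a y := by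
    rw [Lf, Lf, fm_self D d j a, fm_self D d j a x c.1.2 c.2.2]
    simp only [cj, add_mul, sum_add_distrib]
    ring
  rw [h1, h]
  simp

theorem Lf_x (c : (V ι τ × V ι τ) × (V ι τ × V ι τ)) (a : Arr ι τ) (x : ι → ZMod 2) :
    Lf D d c a x = Lf D d c a 0 + ∑ i, cq c i * x i := by
  have h1 := fm_x D d a 0 x c.1.1 c.2.1
  have h2 := fm_x D d a 0 x c.1.2 c.2.2
  rw [zero_add] at h1 h2
  rw [Lf, Lf, h1, h2]
  have h3 : ∑ i, cq c i * x i = ∑ i, x i * om (c.1.1.1 i) (c.2.1.1 i) +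
      ∑ i, x i * om (c.1.2.1 i) (c.2.2.1 i) := by
    rw [← sum_add_distrib]
    exact sum_congr rfl fun i _ => by rw [cq]; ring
  rw [h3]
  ring

/-- the average over the diagonal -/
noncomputable def Ph (c : (V ι τ × V ι τ) × (V ι τ × V ι τ)) (D : DE τ) (d : ι → ZMod 2)
    (a : Arr ι τ) : ℝ := av fun x : ι → ZMod 2 => sg (Lf D d c a x)

theorem Ph_eq (c : (V ι τ × V ι τ) × (V ι τ × V ι τ)) (a : Arr ι τ) :
    Ph c D d a = ind (cq c = 0) * sg (Lf D d c a 0) := by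
  have h1 : ∀ x : ι → ZMod 2, sg (Lf D d c a x) = sg (Lf D d c a 0) * sg (∑ i, cq c i * x i) :=
    fun x => by rw [Lf_x, sg_add]
  rw [Ph, av_congr h1, av_mul, av_char]
  by_cases h : cq c = 0
  · rw [if_pos h, ind_pos h]; ring
  · rw [if_neg h, ind_neg h]; ring

theorem Mop_Ph (c : (V ι τ × V ι τ) × (V ι τ × V ι τ)) (j : ι) :
    Mop j (Ph c D d) = fun a => ind (cj D.toDat c j = 0) * Ph c D d a := by
  funext a
  have h1 : ∀ v : ι ⊕ τ → ZMod 2, Ph c D d (rep j v a) =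
      (ind (cq c = 0) * sg (Lf D d c (rep j 0 a) 0)) * sg (∑ y, cj D.toDat c j y * v y) := by
    intro v
    rw [Ph_eq, Lf_rep, sg_add, mul_assoc]
  rw [Mop, av_congr h1, av_mul, av_char, Ph_eq]
  by_cases h : cj D.toDat c j = 0
  · rw [if_pos h, ind_pos h, mul_one, one_mul, Lf_self c j a 0 h]
  · rw [if_neg h, ind_neg h, mul_zero, zero_mul]

theorem MM_Ph (l : List ι) (c : (V ι τ × V ι τ) × (V ι τ × V ι τ)) (a : Arr ι τ) :
    MM l (Ph c D d) a = ind (∀ j ∈ l, cj D.toDat c j = 0) * Ph c D d a := by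
  induction l with
  | nil =>
    rw [ind_pos (by simp), one_mul]
    rfl
  | cons j l ih =>
    show MM l (Mop j (Ph c D d)) a = _
    rw [Mop_Ph, MM_mul, ih, ← mul_assoc]
    congr 1
    by_cases h : cj D.toDat c j = 0
    · rw [ind_pos h, one_mul]
      apply ind_congr
      simp [h]
    · rw [ind_neg h, zero_mul, ind_neg]
      intro h'
      exact h (h' j (by simp))

theorem MM_Ph_le (l : List ι) (c : (V ι τ × V ι τ) × (V ι τ × V ι τ)) (a : Arr ι τ) :
    MM l (Ph c D d) a ≤ ind ((∀ j ∈ l, cj D.toDat c j = 0) ∧ cq c = 0) := by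
  rw [MM_Ph, Ph_eq]
  have h1 : sg (Lf D d c a 0) ≤ 1 := by
    have := abs_sg (Lf D d c a 0)
    exact (le_abs_self _).trans this.le
  by_cases h2 : ∀ j ∈ l, cj D.toDat c j = 0
  · by_cases h3 : cq c = 0
    · rw [ind_pos h2, ind_pos h3, ind_pos ⟨h2, h3⟩, one_mul, one_mul]
      exact h1
    · rw [ind_neg h3, zero_mul, mul_zero]
      exact ind_nonneg _
  · rw [ind_neg h2, zero_mul]
    exact ind_nonneg _

/-! ### The configurations -/

theorem kr_zero {S : Finset ι} {a : Arr ι τ} {x : ι → ZMod 2} {κ : V ι τ}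
    (hκ : κ ∈ kr (fm D d a x) (VS S)) {s : τ} (hs : D.t s = 0) : κ.2 s = 0 := by
  have h := hκ.2 ((0, Pi.single s 1) : V ι τ) (fun i _ => rfl)
  have e0 : dt D κ ((0, Pi.single s 1) : V ι τ) = 0 := by
    rw [dt_apply]
    refine sum_eq_zero fun s' _ => ?_
    show (1 + D.ep s') * (κ.2 s' * (Pi.single s 1 : τ → ZMod 2) s') = 0
    by_cases h' : s' = s
    · rw [h', D.hep s hs, F2s, zero_mul]
    · rw [Pi.single_eq_of_ne h', mul_zero, mul_zero]
  rw [fm_eq, e0, add_zero, XL.fm_apply, Phi] at h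
  have e1 : dg D d ((0, Pi.single s 1) : V ι τ) = 0 := by
    unfold dg
    have a1 : ∑ i, d i • ((0, Pi.single s 1) : V ι τ).1 i = 0 :=
      sum_eq_zero fun i _ => smul_zero _
    rw [a1, zero_add]
    refine sum_eq_zero fun s' _ => ?_
    show (D.e s' * (Pi.single s 1 : τ → ZMod 2) s') • D.t s' = 0
    by_cases h' : s' = s
    · rw [h', hs, smul_zero]
    · rw [Pi.single_eq_of_ne h', mul_zero, zero_smul]
  have e2 : ∑ i, x i * om (κ.1 i) (((0, Pi.single s 1) : V ι τ).1 i) = 0 :=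
    sum_eq_zero fun i _ => by
      have : ((0, Pi.single s 1) : V ι τ).1 i = 0 := rfl
      rw [this, om_zero_right, mul_zero]
  have e3 : Pool.Agent.Y164.PS.FF D.toDat a.A a.B d κ ((0, Pi.single s 1) : V ι τ) = κ.2 s := by
    have z1 : ∀ i, ((0, Pi.single s 1) : V ι τ).1 i = 0 := fun _ => rfl
    have z2 : ∀ s', ((0, Pi.single s 1) : V ι τ).2 s' = (Pi.single s 1 : τ → ZMod 2) s' :=
      fun _ => rfl
    unfold Pool.Agent.Y164.PS.FF
    simp only [z1, z2, Pi.zero_apply, om_zero_right, om_zero_left, mul_zero, add_zero,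
      sum_const_zero, zero_add]
    have a1 : ∑ i, ∑ s', a.B i s' * ((Pi.single s 1 : τ → ZMod 2) s' * om (κ.1 i) (D.t s')) = 0 := by
      refine sum_eq_zero fun i _ => sum_eq_zero fun s' _ => ?_
      by_cases h' : s' = s
      · rw [h', hs, om_zero_right, mul_zero, mul_zero]
      · rw [Pi.single_eq_of_ne h', zero_mul, mul_zero]
    have a2 : ∑ s₁, ∑ s₂, D.G s₁ s₂ * (κ.2 s₂ * (Pi.single s 1 : τ → ZMod 2) s₁ *
        om (D.t s₂) (D.t s₁)) = 0 := by
      refine sum_eq_zero fun s₁ _ => sum_eq_zero fun s₂ _ => ?_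
      by_cases h' : s₁ = s
      · rw [h', hs, om_zero_right, mul_zero, mul_zero]
      · rw [Pi.single_eq_of_ne h', mul_zero, zero_mul, mul_zero]
    have a3 : ∑ s', κ.2 s' * (Pi.single s 1 : τ → ZMod 2) s' = κ.2 s := by
      rw [sum_eq_single s]
      · rw [Pi.single_eq_same, mul_one]
      · intro b _ hb
        rw [Pi.single_eq_of_ne hb, mul_zero]
      · intro h
        exact absurd (mem_univ _) h
    rw [a1, a2, a3, zero_add, zero_add]
  rw [e1, e2, e3, om_zero_right, add_zero, add_zero] at h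
  exact h

theorem ind_kr {S : Finset ι} (a : Arr ι τ) (x : ι → ZMod 2) {κ : V ι τ} (hκ : κ ∈ VS S) :
    ind (κ ∈ kr (fm D d a x) (VS S)) * (Vf S : Finset (V ι τ)).card =
      ∑ w ∈ (Vf S : Finset (V ι τ)), sg (fm D d a x κ w) := by
  have h1 := sum_hom (((fm D d a x) κ).toAddMonoidHom.comp (VS (τ := τ) S).subtype.toAddMonoidHom)
  have h2 : ∑ w ∈ (Vf S : Finset (V ι τ)), sg (fm D d a x κ w) =
      ∑ g : VS (τ := τ) S, sg ((((fm D d a x) κ).toAddMonoidHom.comp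
        (VS (τ := τ) S).subtype.toAddMonoidHom) g) := by
    exact sum_subtype (p := fun w => w ∈ VS (τ := τ) S) (Vf S)
      (fun w => by rw [Vf, mem_filter]; exact ⟨fun h => h.2, fun h => ⟨mem_univ _, h⟩⟩)
      fun w => sg (fm D d a x κ w)
  have h3 : (Vf S : Finset (V ι τ)).card = Fintype.card (VS (τ := τ) S) := by
    rw [Fintype.card_subtype]
    rfl
  rw [h2, h1, h3]
  by_cases h : κ ∈ kr (fm D d a x) (VS S)
  · rw [ind_pos h, one_mul, if_pos]
    intro g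
    exact h.2 g.1 g.2
  · rw [ind_neg h, zero_mul, if_neg]
    intro h'
    exact h ⟨hκ, fun w hw => h' ⟨w, hw⟩⟩

theorem ind_NG (S : Finset ι) (a : Arr ι τ) (x : ι → ZMod 2) :
    ind (NG D d S a x) * ((Vf S : Finset (V ι τ)).card : ℝ) ^ 2 ≤
      ∑ p ∈ RR D.toDat S, ∑ q ∈ (Vf S : Finset (V ι τ)) ×ˢ (Vf S : Finset (V ι τ)),
        sg (Lf D d (p, q) a x) := by
  have h1 : ∀ p ∈ RR D.toDat S, ∑ q ∈ (Vf S : Finset (V ι τ)) ×ˢ (Vf S : Finset (V ι τ)),
      sg (Lf D d (p, q) a x) = (ind (p.1 ∈ kr (fm D d a x) (VS S)) *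
        ind (p.2 ∈ kr (fm D d a x) (VS S))) * ((Vf S : Finset (V ι τ)).card : ℝ) ^ 2 := by
    intro p hp
    have hp' := (mem_filter.1 hp).2.1
    have e1 := ind_kr (D := D) (d := d) a x hp'.1
    have e2 := ind_kr (D := D) (d := d) a x hp'.2
    calc ∑ q ∈ (Vf S : Finset (V ι τ)) ×ˢ (Vf S : Finset (V ι τ)), sg (Lf D d (p, q) a x) =
        (∑ w ∈ (Vf S : Finset (V ι τ)), sg (fm D d a x p.1 w)) *
          (∑ w ∈ (Vf S : Finset (V ι τ)), sg (fm D d a x p.2 w)) := by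
          rw [sum_mul_sum, sum_product]
          refine sum_congr rfl fun w _ => sum_congr rfl fun w' _ => ?_
          rw [Lf, sg_add]
      _ = _ := by rw [← e1, ← e2]; ring
  rw [sum_congr rfl h1, ← sum_mul]
  apply mul_le_mul_of_nonneg_right _ (by positivity)
  by_cases h : NG D d S a x
  · obtain ⟨κ₁, h2, κ₂, h3, h4⟩ := h
    rw [ind_pos ⟨κ₁, h2, κ₂, h3, h4⟩]
    have h5 : (κ₁, κ₂) ∈ RR D.toDat S := mem_filter.2 ⟨mem_univ _, ⟨h2.1, h3.1⟩, h4,
      fun s hs => ⟨kr_zero h2 hs, kr_zero h3 hs⟩⟩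
    refine le_trans ?_ (single_le_sum (f := fun p : V ι τ × V ι τ =>
      ind (p.1 ∈ kr (fm D d a x) (VS S)) * ind (p.2 ∈ kr (fm D d a x) (VS S)))
      (fun p _ => mul_nonneg (ind_nonneg _) (ind_nonneg _)) h5)
    show 1 ≤ ind (κ₁ ∈ kr (fm D d a x) (VS S)) * ind (κ₂ ∈ kr (fm D d a x) (VS S))
    rw [ind_pos h2, ind_pos h3, one_mul]
  · rw [ind_neg h]
    exact sum_nonneg fun p _ => mul_nonneg (ind_nonneg _) (ind_nonneg _)

/-- **kernels are generic** -/
theorem ng_bound (h2t : ∀ u : W, u ≠ 0 → ∃ s, om u (D.t s) ≠ 0) {S : Finset ι} {l : List ι}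
    (hl : l.Nodup) (hlS : ∀ j ∈ l, j ∈ S) (a : Arr ι τ) :
    MM l (fun a => av fun x : ι → ZMod 2 => ind (NG D d S a x)) a ≤
      CX * 4 ^ Fintype.card τ * ((15 / 16) ^ l.length * 16 ^ (S.card - l.length)) := by
  set v : ℝ := ((Vf S : Finset (V ι τ)).card : ℝ) with hv
  have hvp : 0 < v := by
    rw [hv, card_Vf]
    positivity
  have h1 : ∀ a : Arr ι τ, v ^ 2 * av (fun x : ι → ZMod 2 => ind (NG D d S a x)) ≤
      ∑ c ∈ RR D.toDat S ×ˢ ((Vf S : Finset (V ι τ)) ×ˢ (Vf S : Finset (V ι τ))), Ph c D d a := by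
    intro a
    rw [← av_mul]
    have h2 : ∀ x : ι → ZMod 2, v ^ 2 * ind (NG D d S a x) ≤
        ∑ c ∈ RR D.toDat S ×ˢ ((Vf S : Finset (V ι τ)) ×ˢ (Vf S : Finset (V ι τ))),
          sg (Lf D d c a x) := by
      intro x
      rw [sum_product, mul_comm]
      exact ind_NG S a x
    refine (av_mono h2).trans (le_of_eq ?_)
    exact av_sum _ fun c (x : ι → ZMod 2) => sg (Lf D d c a x)
  have h2 := MM_mono l h1 a
  rw [MM_mul, MM_sum] at h2
  have h3 : ∑ c ∈ RR D.toDat S ×ˢ ((Vf S : Finset (V ι τ)) ×ˢ (Vf S : Finset (V ι τ))),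
      MM l (Ph c D d) a ≤ ((Cfs D.toDat S l).card : ℝ) := by
    refine (sum_le_sum fun c _ => MM_Ph_le l c a).trans (le_of_eq ?_)
    rw [Cfs, card_filter]
    push_cast
    refine sum_congr rfl fun c _ => ?_
    by_cases h : (∀ j ∈ l, cj D.toDat c j = 0) ∧ cq c = 0
    · rw [ind_pos h, if_pos h]
    · rw [ind_neg h, if_neg h]
  have h4 : ((Cfs D.toDat S l).card : ℝ) ≤
      CX * 16 ^ Fintype.card τ * (15 ^ l.length * 256 ^ (S.card - l.length)) := by
    exact_mod_cast card_Cfs h2t hl hlS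
  have h5 : l.length ≤ S.card := by
    rw [← List.toFinset_card_of_nodup hl]
    exact card_le_card fun i hi => hlS i (List.mem_toFinset.1 hi)
  have h6 : (CX : ℝ) * 16 ^ Fintype.card τ * (15 ^ l.length * 256 ^ (S.card - l.length)) =
      v ^ 2 * (CX * 4 ^ Fintype.card τ * ((15 / 16) ^ l.length * 16 ^ (S.card - l.length))) := by
    rw [hv, card_Vf]
    obtain ⟨m, hm⟩ : ∃ m, S.card = l.length + m := ⟨S.card - l.length, by omega⟩
    rw [hm, Nat.add_sub_cancel_left]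
    have e1 : (4 : ℝ) ^ (l.length + m) = 4 ^ l.length * 4 ^ m := pow_add _ _ _
    have e2 : (256 : ℝ) ^ m = (4 ^ m) ^ 2 * 16 ^ m := by
      rw [← pow_mul, mul_comm m 2, pow_mul, ← mul_pow]; norm_num
    have e3 : (15 : ℝ) ^ l.length = (4 ^ l.length) ^ 2 * (15 / 16) ^ l.length := by
      rw [← pow_mul, mul_comm l.length 2, pow_mul, ← mul_pow]; norm_num
    have e4 : (16 : ℝ) ^ Fintype.card τ = (2 ^ Fintype.card τ) ^ 2 * 4 ^ Fintype.card τ := by
      rw [← pow_mul, mul_comm (Fintype.card τ) 2, pow_mul, ← mul_pow]; norm_num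
    rw [e1, e2, e3, e4]
    ring
  have h7 := h2.trans (h3.trans h4)
  rw [h6] at h7
  exact le_of_mul_le_mul_left h7 (by positivity)

end

end Pool.Agent.V8H26.YL
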