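import Pool.Agent.V8H26.YL.Def

/-!
# One more index
-/

set_option autoImplicit false
set_option linter.all false

namespace Pool.Agent.V8H26.YL

open Module Finset Pool.Agent.V8H26.XL
open Pool.Agent.Y164.PS (W om om_add_left om_add_right om_comm om_self om_zero_left om_zero_right Oq ee
  om_smul_left om_smul_right eq_zero_of_om W_add_self Dat V ks dg ws dg_ws lab ks_add dg_add sg sg_add
  sg_zero sg_one abs_sg FF_split)
open Pool.Agent.V8H64.FF (Phi phi_comm phi_add_left phi_smul_left)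
open scoped Classical

section
variable {ι τ : Type} [Fintype ι] [Fintype τ] (D : DE τ) (d : ι → ZMod 2)

variable {D d}

theorem Lp_inj {S : Finset ι} {j : ι} (hj : j ∉ S) {a : Arr ι τ} {x : ι → ZMod 2}
    (hng : ¬ NG D d S a x) (p : kr (fm D d a x) (VS S) × kr (fm D d a x) (VS S))
    (h : Lp D.toDat j (kr (fm D d a x) (VS S)) p = 0) : p = 0 := by
  by_contra hne
  apply hng
  have h1 : p.1.1.1 j = 0 := p.1.2.1 j hj
  have h2 : p.2.1.1 j = 0 := p.2.2.1 j hj
  refine ⟨p.1.1, p.1.2, p.2.1, p.2.2, ?_, ?_, ?_⟩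
  · by_contra hno
    push Not at hno
    apply hne
    exact Prod.ext (Subtype.ext hno.1) (Subtype.ext hno.2)
  · intro i
    have h3 : co D j p.1.1 (vj j (1, 0)) (Sum.inl i) + co D j p.2.1 (vj j (0, 1)) (Sum.inl i) = 0 :=
      congrFun h (Sum.inl i)
    rw [co_inl D h1, co_inl D h2] at h3
    have h4 : (p.1.1.1 i).2 + (p.2.1.1 i).1 = 0 := by
      rw [← h3]
      simp [om]
    calc (p.1.1.1 i).2 = (p.1.1.1 i).2 + ((p.2.1.1 i).1 + (p.2.1.1 i).1) := by rw [F2s, add_zero]
      _ = _ := by rw [← add_assoc, h4, zero_add]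
  · intro s
    have h3 : co D j p.1.1 (vj j (1, 0)) (Sum.inr s) + co D j p.2.1 (vj j (0, 1)) (Sum.inr s) = 0 :=
      congrFun h (Sum.inr s)
    rw [co_inr D h1, co_inr D h2] at h3
    have h4 : p.1.1.2 s * (D.t s).2 + p.2.1.2 s * (D.t s).1 = 0 := by
      rw [← h3]
      simp [om]
    calc p.1.1.2 s * (D.t s).2 = p.1.1.2 s * (D.t s).2 +
          (p.2.1.2 s * (D.t s).1 + p.2.1.2 s * (D.t s).1) := by rw [F2s, add_zero]
      _ = _ := by rw [← add_assoc, h4, zero_add]

theorem av_pair {S : Finset ι} {j : ι} (hj : j ∉ S) {a : Arr ι τ} {x : ι → ZMod 2}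
    (hng : ¬ NG D d S (rep j 0 a) x) {G : Type} [AddCommGroup G] [Fintype G]
    (m : G →+ kr (fm D d (rep j 0 a) x) (VS S) × kr (fm D d (rep j 0 a) x) (VS S))
    (hm : ∀ g, m g = 0 → g = 0) :
    av (fun v : ι ⊕ τ → ZMod 2 => ind (∀ g, fm D d (rep j v a) (x + vh j v) (m g).1.1 (vj j (1, 0)) +
      fm D d (rep j v a) (x + vh j v) (m g).2.1 (vj j (0, 1)) = 0)) =
      1 / Fintype.card G := by
  refine Eq.trans (av_congr fun v => ?_)
    (av_ind ((Lp D.toDat j (kr (fm D d (rep j 0 a) x) (VS S))).comp m)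
    ((Cp D.toDat d j (kr (fm D d (rep j 0 a) x) (VS S))).comp m)
    (fun g hg => hm g (Lp_inj hj hng _ hg)))
  have h1 : ∀ g, fm D d (rep j v a) (x + vh j v) (m g).1.1 (vj j (1, 0)) +
      fm D d (rep j v a) (x + vh j v) (m g).2.1 (vj j (0, 1)) =
      (∑ z, ((Lp D.toDat j (kr (fm D d (rep j 0 a) x) (VS S))).comp m) g z * v z) +
        ((Cp D.toDat d j (kr (fm D d (rep j 0 a) x) (VS S))).comp m) g := by
    intro g
    rw [fm_new D d j v a _ _ _ ((m g).1.2.1 j hj), fm_new D d j v a _ _ _ ((m g).2.2.1 j hj)]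
    show _ = (∑ z, (co D j (m g).1.1 (vj j (1, 0)) + co D j (m g).2.1 (vj j (0, 1))) z * v z) +
      (d j * om (ks D.l (dg D d (m g).1.1)) (1, 0) + d j * om (ks D.l (dg D d (m g).2.1)) (0, 1))
    simp only [Pi.add_apply, add_mul, sum_add_distrib]
    ring
  simp only [h1]

theorem step_gen (F : ℕ → ℝ) {S : Finset ι} {j : ι} (hj : j ∉ S) (n : ℕ) {a : Arr ι τ}
    {x : ι → ZMod 2} (hng : ¬ NG D d S (rep j 0 a) x) :
    av (fun v : ι ⊕ τ → ZMod 2 =>
      gg F n (rho (fm D d (rep j v a) (x + vh j v)) (VS (insert j S))) +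
      gg F n (rho (fm D d (rep j v a) (x + Pi.single j 1 + vh j v)) (VS (insert j S)))) =
      2 * gg F (n + 2) (rho (fm D d (rep j 0 a) x) (VS S)) := by
  set K := kr (fm D d (rep j 0 a) x) (VS S) with hK
  set r := rho (fm D d (rep j 0 a) x) (VS S) with hr
  have hrest : ∀ v : ι ⊕ τ → ZMod 2, ∀ u ∈ VS (τ := τ) S, ∀ w ∈ VS (τ := τ) S,
      fm D d (rep j v a) (x + vh j v) u w = fm D d (rep j 0 a) x u w :=
    fun v u hu w hw => fm_rest D d j v a x u w (hu j hj) (hw j hj)
  have hKv : ∀ v : ι ⊕ τ → ZMod 2, kr (fm D d (rep j v a) (x + vh j v)) (VS S) = K :=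
    fun v => kr_congr (hrest v)
  have hrv : ∀ v : ι ⊕ τ → ZMod 2, rho (fm D d (rep j v a) (x + vh j v)) (VS S) = r :=
    fun v => rho_congr (hrest v)
  have hxj : ∀ (v : ι ⊕ τ → ZMod 2) (w w' : V ι τ),
      fm D d (rep j v a) (x + Pi.single j 1 + vh j v) w w' =
      fm D d (rep j v a) (x + vh j v) w w' + om (w.1 j) (w'.1 j) := by
    intro v w w'
    rw [add_right_comm, fm_xj]
  have h1 : ∀ v : ι ⊕ τ → ZMod 2,
      gg F n (rho (fm D d (rep j v a) (x + vh j v)) (VS (insert j S))) +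
      gg F n (rho (fm D d (rep j v a) (x + Pi.single j 1 + vh j v)) (VS (insert j S))) =
      2 * gg F n (r - 2) +
      (ind (∀ κ ∈ K, fm D d (rep j v a) (x + vh j v) κ (vj j (1, 0)) = 0)) *
        (2 * gg F n r - 2 * gg F n (r - 2)) +
      (ind (∀ κ ∈ K, fm D d (rep j v a) (x + vh j v) κ (vj j (0, 1)) = 0)) *
        (2 * gg F n r - 2 * gg F n (r - 2)) +
      (ind (∀ κ ∈ K, fm D d (rep j v a) (x + vh j v) κ (vj j (1, 0) + vj j (0, 1)) = 0)) * (2 * gg F n r - 2 * gg F n (r - 2)) +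
      (ind ((∀ κ ∈ K, fm D d (rep j v a) (x + vh j v) κ (vj j (1, 0)) = 0) ∧
        (∀ κ ∈ K, fm D d (rep j v a) (x + vh j v) κ (vj j (0, 1)) = 0))) *
        (gg F n (r + 2) - 5 * gg F n r + 4 * gg F n (r - 2)) := by
    intro v
    have h2 := two_sum (B := fm D d (rep j v a) (x + vh j v))
      (B' := fm D d (rep j v a) (x + Pi.single j 1 + vh j v)) (fm_symm D d _ _) (fm_symm D d _ _)
      (U := VS S) (e := vj j (1, 0)) (f := vj j (0, 1)) (φ := fe j) (ψ := ff j) (fe_VS hj) (fe_e j)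
      (ff_VS hj) (ff_e j) (ff_f j) (z := ws) (ws_mem S) (fm_diag D d _ _) (fm_diag D d _ _)
      (fun u hu w _ => by rw [hxj, hu j hj, om_zero_left, add_zero])
      (fun u hu => by rw [hxj, hu j hj, om_zero_left, add_zero])
      (fun u hu => by rw [hxj, hu j hj, om_zero_left, add_zero])
      (by rw [hxj, om_self, add_zero])
      (by
        rw [hxj, vj_fst, if_pos rfl, vj_fst, if_pos rfl]
        congr 1) (gg F n)
    rw [hKv v, hrv v, ← VS_insert hj] at h2
    exact h2
  rw [av_congr h1, av_add, av_add, av_add, av_add, av_const (α := ι ⊕ τ → ZMod 2), av_mul', av_mul', av_mul', av_mul']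
  -- the four probabilities
  have p1 : av (fun v : ι ⊕ τ → ZMod 2 => ind (∀ κ ∈ K,
      fm D d (rep j v a) (x + vh j v) κ (vj j (1, 0)) = 0)) = (1 / 2) ^ r := by
    rw [hr, ← card_kr, ← av_pair hj hng (AddMonoidHom.inl K K) (fun g hg => congrArg Prod.fst hg)]
    refine av_congr fun v => ?_
    apply ind_congr
    constructor
    · intro h g
      show fm D d (rep j v a) (x + vh j v) g.1 _ + fm D d (rep j v a) (x + vh j v) 0 _ = 0
      rw [h g.1 g.2, map_zero, LinearMap.zero_apply, add_zero]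
    · intro h κ hκ
      have h3 : fm D d (rep j v a) (x + vh j v) κ (vj j (1, 0)) +
        fm D d (rep j v a) (x + vh j v) 0 (vj j (0, 1)) = 0 := h ⟨κ, hκ⟩
      rw [map_zero, LinearMap.zero_apply, add_zero] at h3
      exact h3
  have p2 : av (fun v : ι ⊕ τ → ZMod 2 => ind (∀ κ ∈ K,
      fm D d (rep j v a) (x + vh j v) κ (vj j (0, 1)) = 0)) = (1 / 2) ^ r := by
    rw [hr, ← card_kr, ← av_pair hj hng (AddMonoidHom.inr K K) (fun g hg => congrArg Prod.snd hg)]
    refine av_congr fun v => ?_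
    apply ind_congr
    constructor
    · intro h g
      show fm D d (rep j v a) (x + vh j v) 0 _ + fm D d (rep j v a) (x + vh j v) g.1 _ = 0
      rw [h g.1 g.2, map_zero, LinearMap.zero_apply, zero_add]
    · intro h κ hκ
      have h3 : fm D d (rep j v a) (x + vh j v) 0 (vj j (1, 0)) +
        fm D d (rep j v a) (x + vh j v) κ (vj j (0, 1)) = 0 := h ⟨κ, hκ⟩
      rw [map_zero, LinearMap.zero_apply, zero_add] at h3
      exact h3
  have p3 : av (fun v : ι ⊕ τ → ZMod 2 => ind (∀ κ ∈ K,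
      fm D d (rep j v a) (x + vh j v) κ (vj j (1, 0) + vj j (0, 1)) = 0)) =
      (1 / 2) ^ r := by
    rw [hr, ← card_kr, ← av_pair hj hng ((AddMonoidHom.id K).prod (AddMonoidHom.id K))
      (fun g hg => congrArg Prod.fst hg)]
    refine av_congr fun v => ?_
    apply ind_congr
    constructor
    · intro h g
      have h3 := h g.1 g.2
      rw [map_add] at h3
      exact h3
    · intro h κ hκ
      have h3 : fm D d (rep j v a) (x + vh j v) κ (vj j (1, 0)) +
        fm D d (rep j v a) (x + vh j v) κ (vj j (0, 1)) = 0 := h ⟨κ, hκ⟩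
      rw [map_add]
      exact h3
  have p4 : av (fun v : ι ⊕ τ → ZMod 2 => ind ((∀ κ ∈ K,
      fm D d (rep j v a) (x + vh j v) κ (vj j (1, 0)) = 0) ∧
      (∀ κ ∈ K, fm D d (rep j v a) (x + vh j v) κ (vj j (0, 1)) = 0))) =
      ((1 / 2) ^ r) ^ 2 := by
    have h3 : ((1 / 2 : ℝ) ^ r) ^ 2 = 1 / Fintype.card (K × K) := by
      rw [hr, ← card_kr, Fintype.card_prod]
      push_cast
      rw [div_pow, one_pow, pow_two]
    rw [h3, ← av_pair hj hng (AddMonoidHom.id (K × K)) (fun g hg => hg)]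
    refine av_congr fun v => ?_
    apply ind_congr
    constructor
    · intro h g
      show fm D d (rep j v a) (x + vh j v) g.1.1 _ + fm D d (rep j v a) (x + vh j v) g.2.1 _ = 0
      rw [h.1 g.1.1 g.1.2, h.2 g.2.1 g.2.2, add_zero]
    · intro h
      constructor
      · intro κ hκ
        have h4 : fm D d (rep j v a) (x + vh j v) κ (vj j (1, 0)) +
          fm D d (rep j v a) (x + vh j v) 0 (vj j (0, 1)) = 0 := h (⟨κ, hκ⟩, 0)
        rw [map_zero, LinearMap.zero_apply, add_zero] at h4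
        exact h4
      · intro κ hκ
        have h4 : fm D d (rep j v a) (x + vh j v) 0 (vj j (1, 0)) +
          fm D d (rep j v a) (x + vh j v) κ (vj j (0, 1)) = 0 := h (0, ⟨κ, hκ⟩)
        rw [map_zero, LinearMap.zero_apply, zero_add] at h4
        exact h4
  rw [p1, p2, p3, p4, gg_two]
  ring

/-- **one more index** -/
theorem step {F : ℕ → ℝ} (h0 : ∀ r, 0 ≤ F r) (h1 : ∀ r, F r ≤ 1) {S : Finset ι} {j : ι}
    (hj : j ∉ S) (n : ℕ) (a : Arr ι τ) :
    |Mop j (EE D d F (insert j S) n) a - EE D d F S (n + 2) a| ≤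
      av (fun x : ι → ZMod 2 => ind (NG D d S (rep j 0 a) x)) := by
  have e1 : Mop j (EE D d F (insert j S) n) a = av (fun x : ι → ZMod 2 =>
      1 / 2 * av (fun v : ι ⊕ τ → ZMod 2 =>
      gg F n (rho (fm D d (rep j v a) (x + vh j v)) (VS (insert j S))) +
      gg F n (rho (fm D d (rep j v a) (x + Pi.single j 1 + vh j v)) (VS (insert j S))))) := by
    have e2 : Mop j (EE D d F (insert j S) n) a = av (fun x : ι → ZMod 2 =>
        av (fun v : ι ⊕ τ → ZMod 2 =>
        gg F n (rho (fm D d (rep j v a) (x + vh j v)) (VS (insert j S))))) := by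
      rw [← av_comm (fun (v : ι ⊕ τ → ZMod 2) (x : ι → ZMod 2) =>
        gg F n (rho (fm D d (rep j v a) (x + vh j v)) (VS (insert j S))))]
      refine av_congr fun v => ?_
      exact (av_shift (vh j v) fun x => gg F n (rho (fm D d (rep j v a) x) (VS (insert j S)))).symm
    have e3 := av_shift (Pi.single j 1 : ι → ZMod 2) (fun x : ι → ZMod 2 =>
        av (fun v : ι ⊕ τ → ZMod 2 =>
        gg F n (rho (fm D d (rep j v a) (x + vh j v)) (VS (insert j S)))))
    have e4 := av_half (fun (x : ι → ZMod 2) (v : ι ⊕ τ → ZMod 2) =>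
      gg F n (rho (fm D d (rep j v a) (x + vh j v)) (VS (insert j S))))
      (fun (x : ι → ZMod 2) (v : ι ⊕ τ → ZMod 2) =>
      gg F n (rho (fm D d (rep j v a) (x + Pi.single j 1 + vh j v)) (VS (insert j S))))
    rw [e4, e2]
    have e5 : av (fun x : ι → ZMod 2 => av (fun v : ι ⊕ τ → ZMod 2 =>
      gg F n (rho (fm D d (rep j v a) (x + Pi.single j 1 + vh j v)) (VS (insert j S))))) =
      av (fun x : ι → ZMod 2 => av (fun v : ι ⊕ τ → ZMod 2 =>
      gg F n (rho (fm D d (rep j v a) (x + vh j v)) (VS (insert j S))))) := e3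
    rw [e5]
    ring
  rw [e1, EE_self D d F hj, EE, ← av_sub]
  apply abs_av_le
  intro x
  have b1 : 0 ≤ av (fun v : ι ⊕ τ → ZMod 2 =>
      gg F n (rho (fm D d (rep j v a) (x + vh j v)) (VS (insert j S))) +
      gg F n (rho (fm D d (rep j v a) (x + Pi.single j 1 + vh j v)) (VS (insert j S)))) :=
    av_nonneg fun v => add_nonneg (gg_bd h0 h1 n _).1 (gg_bd h0 h1 n _).1
  have b2 : av (fun v : ι ⊕ τ → ZMod 2 =>
      gg F n (rho (fm D d (rep j v a) (x + vh j v)) (VS (insert j S))) +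
      gg F n (rho (fm D d (rep j v a) (x + Pi.single j 1 + vh j v)) (VS (insert j S)))) ≤ 2 := by
    have h2 : ∀ v : ι ⊕ τ → ZMod 2,
      gg F n (rho (fm D d (rep j v a) (x + vh j v)) (VS (insert j S))) +
      gg F n (rho (fm D d (rep j v a) (x + Pi.single j 1 + vh j v)) (VS (insert j S))) ≤ 2 :=
      fun v => by
        have h3 := (gg_bd h0 h1 n (rho (fm D d (rep j v a) (x + vh j v)) (VS (insert j S)))).2
        have h4 := (gg_bd h0 h1 n (rho (fm D d (rep j v a) (x + Pi.single j 1 + vh j v))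
          (VS (insert j S)))).2
        linarith
    exact (av_mono h2).trans (le_of_eq (av_const 2))
  have b3 := gg_bd h0 h1 (n + 2) (rho (fm D d (rep j 0 a) x) (VS S))
  by_cases hng : NG D d S (rep j 0 a) x
  · rw [ind_pos hng, abs_le]
    constructor <;> linarith
  · rw [ind_neg hng, step_gen F hj n hng]
    have : 1 / 2 * (2 * gg F (n + 2) (rho (fm D d (rep j 0 a) x) (VS S))) -
      gg F (n + 2) (rho (fm D d (rep j 0 a) x) (VS S)) = 0 := by ring
    rw [this, abs_zero]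

end

end Pool.Agent.V8H26.YL
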