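import Pool.Agent.V8H26.YL.Chn
import Pool.Agent.V8H26.XL.Trv
import Pool.Agent.V8H64.FF.Opt

/-!
# The kernel of the form and the class condition
-/

set_option autoImplicit false
set_option linter.all false

namespace Pool.Agent.V8H26.YL

open Module Finset Pool.Agent.V8H26.XL
open Pool.Agent.Y164.PS (W om om_add_left om_add_right om_comm om_self om_zero_left om_zero_right Oq ee
  om_smul_left om_smul_right eq_zero_of_om W_add_self Dat V ks dg ws dg_ws lab ks_add dg_add sg sg_add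
  sg_zero sg_one abs_sg FF_split FF_add_left FF_add_right FF_comm TT dg_TT FF_eq E1_TT E2_TT Triv
  om_ks_comm FF_zero_left)
open Pool.Agent.V8H64.FF (Phi phi_comm phi_add_left phi_smul_left om_odd)
open scoped Classical

section
variable {ι τ : Type} [Fintype ι] [Fintype τ] (D : DE τ) (d : ι → ZMod 2)

/-- the original form of an array -/
noncomputable def FB (a : Arr ι τ) : LinearMap.BilinForm (ZMod 2) (V ι τ) :=
  XL.FB D d a + dt D

theorem FB_apply (a : Arr ι τ) (w w' : V ι τ) :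
    FB D d a w w' = Pool.Agent.Y164.PS.FF D.toDat a.A a.B d w w' + dt D w w' := rfl

/-- the dimension of the kernel -/
noncomputable def r0 (a : Arr ι τ) : ℕ := rho (FB D d a) (V0 D.toDat d)

/-- the class condition -/
def clA (a : Arr ι τ) : Prop := ∀ s, D.ep s + ∑ i, a.B i s + D.g s = 0

/-- the equations at the bad primes -/
noncomputable def Eb (B : ι → τ → ZMod 2) (w : V ι τ) (x0 : W) (s : τ) : ZMod 2 :=
  Pool.Agent.Y164.PS.E2 (ι := ι) D.toDat B w x0 s + (1 + D.ep s) * w.2 s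

theorem FF_key (a : Arr ι τ) (w : V ι τ) (x0 : W) (w' : V ι τ) :
    Pool.Agent.Y164.PS.FF D.toDat a.A a.B d w w' + om x0 (dg D.toDat d w') =
      ∑ i, om (Pool.Agent.Y164.PS.E1 (A := a.A) D.toDat a.B d w x0 i) (w'.1 i) +
      ∑ s, Pool.Agent.Y164.PS.E2 (ι := ι) D.toDat a.B w x0 s * w'.2 s := by
  have a1 : ∀ i, om (Pool.Agent.Y164.PS.E1 (A := a.A) D.toDat a.B d w x0 i) (w'.1 i) =
      ∑ j, a.A i j * (om (w.1 j) (w'.1 i) + om (w.1 i) (w'.1 i)) +
      ∑ s, a.B i s * (om (w.1 i) (D.t s) * om (D.t s) (w'.1 i) + w.2 s * om (D.t s) (w'.1 i)) +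
      (d i * om (ks D.l (w.1 i)) (w'.1 i) + d i * om x0 (w'.1 i)) := by
    intro i
    simp only [Pool.Agent.Y164.PS.E1, om_add_left, Pool.Agent.Y164.PS.om_sum_left, om_smul_left]
    rw [mul_add (d i)]
  have a2 : ∀ s, Pool.Agent.Y164.PS.E2 (ι := ι) D.toDat a.B w x0 s * w'.2 s = w.2 s * w'.2 s +
      ∑ i, a.B i s * (w'.2 s * om (w.1 i) (D.t s)) +
      ∑ s', D.G s s' * (w.2 s' * w'.2 s * om (D.t s') (D.t s)) +
      D.e s * w'.2 s * om x0 (D.t s) := by
    intro s
    simp only [Pool.Agent.Y164.PS.E2, add_mul, sum_mul]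
    congr 1
    · congr 1
      · congr 1
        refine sum_congr rfl fun i _ => ?_
        ring
      · refine sum_congr rfl fun i _ => ?_
        ring
    · ring
  have a3 : om x0 (dg D.toDat d w') =
      ∑ i, d i * om x0 (w'.1 i) + ∑ s, D.e s * w'.2 s * om x0 (D.t s) := by
    simp only [dg, om_add_right, Pool.Agent.Y164.PS.om_sum_right, om_smul_right]
  have a4 : ∑ i, ∑ s, a.B i s * (om (w.1 i) (D.t s) * om (w'.1 i) (D.t s) +
      w.2 s * om (D.t s) (w'.1 i) + w'.2 s * om (w.1 i) (D.t s)) =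
      ∑ i, ∑ s, a.B i s * (om (w.1 i) (D.t s) * om (D.t s) (w'.1 i) +
        w.2 s * om (D.t s) (w'.1 i)) +
      ∑ s, ∑ i, a.B i s * (w'.2 s * om (w.1 i) (D.t s)) := by
    rw [sum_comm (s := (univ : Finset τ)) (t := (univ : Finset ι)), ← sum_add_distrib]
    refine sum_congr rfl fun i _ => ?_
    rw [← sum_add_distrib]
    refine sum_congr rfl fun s _ => ?_
    rw [om_comm (w'.1 i) (D.t s)]; ring
  rw [a3]
  simp only [a1, a2, sum_add_distrib]
  rw [Pool.Agent.Y164.PS.FF, a4]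
  ring

/-- the form at a solution of the equations -/
theorem FB_eq (a : Arr ι τ) (w : V ι τ) (x0 : W)
    (h1 : ∀ i, Pool.Agent.Y164.PS.E1 (A := a.A) D.toDat a.B d w x0 i = 0)
    (h2 : ∀ s, Eb D a.B w x0 s = 0) (w' : V ι τ) :
    FB D d a w w' = om x0 (dg D.toDat d w') := by
  have h3 := FF_key D d a w x0 w'
  simp only [h1, om_zero_left, sum_const_zero, zero_add] at h3
  have h4 : ∑ s, Pool.Agent.Y164.PS.E2 (ι := ι) D.toDat a.B w x0 s * w'.2 s = dt D w w' := by
    rw [dt_apply]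
    refine sum_congr rfl fun s _ => ?_
    have h5 : Pool.Agent.Y164.PS.E2 (ι := ι) D.toDat a.B w x0 s = (1 + D.ep s) * w.2 s := by
      have h6 := h2 s
      rw [Eb] at h6
      have h7 : ∀ x y : ZMod 2, x + y = 0 → x = y := by decide
      exact h7 _ _ h6
    rw [h5]
    ring
  rw [h4] at h3
  rw [FB_apply]
  have h8 : ∀ x y z : ZMod 2, x + y = z → x + z = y := by decide
  exact h8 _ _ _ h3

theorem Eb_add (B : ι → τ → ZMod 2) (w w' : V ι τ) (x0 x0' : W) (s : τ) :
    Eb D B (w + w') (x0 + x0') s = Eb D B w x0 s + Eb D B w' x0' s := by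
  rw [Eb, Eb, Eb, Pool.Agent.Y164.PS.E2_add, Prod.snd_add, Pi.add_apply]
  ring

theorem Eb_TT {B : ι → τ → ZMod 2} (hcl : ∀ s, D.ep s + ∑ i, B i s + D.g s = 0) (y : W) (s : τ) :
    Eb (ι := ι) D B (TT D.toDat y) (ks D.l y) s = 0 := by
  have h1 := D.h1 s y
  have h2 := hcl s
  have h3 : Pool.Agent.Y164.PS.E2 (ι := ι) D.toDat B (TT D.toDat y) (ks D.l y) s =
      om y (D.t s) + (∑ i, B i s) * om y (D.t s) + D.g s * om y (D.t s) := by
    simp only [Pool.Agent.Y164.PS.E2, TT]
    rw [add_assoc _ _ (D.e s * om (ks D.l y) (D.t s)), h1, ← sum_mul]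
  rw [Eb, h3]
  show om y (D.t s) + (∑ i, B i s) * om y (D.t s) + D.g s * om y (D.t s) +
    (1 + D.ep s) * om y (D.t s) = 0
  have h4 : (D.ep s + ∑ i, B i s + D.g s) * om y (D.t s) = 0 := by rw [h2, zero_mul]
  linear_combination h4 + F2s (om y (D.t s))

variable {D d}

/-- **the kernel, with one index eliminated** -/
theorem r0_eq {a : Arr ι τ} (hcl : clA D a) (hN : ∑ i, d i + D.N = 1) (j : ι) :
    r0 D d a = rho (fm D d a 0) (VS (univ.erase j)) := by
  have hdT : ∀ y : W, dg D.toDat d (TT D.toDat y) = y := fun y => by rw [dg_TT, hN, one_smul]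
  have hFT : ∀ (y : W) (w' : V ι τ),
      FB D d a (TT D.toDat y) w' = om (ks D.l y) (dg D.toDat d w') := fun y w' =>
    FB_eq D d a _ _ (fun i => E1_TT D.toDat a.B d y i) (fun s => Eb_TT D hcl y s) w'
  have hsy : ∀ w w' : V ι τ, FB D d a w w' = FB D d a w' w := fun w w' => by
    rw [FB_apply, FB_apply, FF_comm D.toDat a.B d a.symm, dt_comm]
  have key : ∀ w w' : V ι τ, FB D d a (cor D.toDat d w) (cor D.toDat d w') = fm D d a 0 w w' := by
    intro w w'
    rw [cor_apply, cor_apply, map_add (FB D d a) w (TT D.toDat _), LinearMap.add_apply, map_add,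
      map_add,
      hsy w (TT D.toDat _), hFT, hFT, hFT, hdT, om_ks_comm D.l (dg D.toDat d w')]
    rw [fm_eq, XL.fm_apply, Phi, FB_apply]
    have h0 : ∑ i, (0 : ι → ZMod 2) i * om (w.1 i) (w'.1 i) = 0 := by simp
    have := om_odd D.l (dg D.toDat d w) (dg D.toDat d w')
    rw [h0]
    linear_combination this
  have hdg : ∀ w : V ι τ, cor D.toDat d w ∈ V0 D.toDat d := fun w => by
    rw [mem_V0, cor_apply, dg_add, hdT, W_add_self]
  have hsurj : ∀ v ∈ V0 D.toDat d, ∃ w ∈ VS (τ := τ) (univ.erase j), cor D.toDat d w = v := by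
    intro v hv
    refine ⟨v + TT D.toDat (v.1 j), ?_, ?_⟩
    · intro i hi
      have hij : i = j := by
        by_contra h
        exact hi (mem_erase.2 ⟨h, mem_univ _⟩)
      rw [hij]
      exact W_add_self _
    · rw [cor_apply, dg_add, hdT, (mem_V0 D.toDat d).1 hv, zero_add, add_assoc, X_self, add_zero]
  have hinj : ∀ w ∈ VS (τ := τ) (univ.erase j), cor D.toDat d w = 0 → w = 0 := by
    intro w hw h
    have h1 : dg D.toDat d w = 0 := by
      have h2 : (cor D.toDat d w).1 j = dg D.toDat d w := by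
        show w.1 j + dg D.toDat d w = _
        rw [hw j (notMem_erase j _), zero_add]
      rw [← h2, h]
      rfl
    rw [cor_apply, h1] at h
    have h3 : (TT D.toDat 0 : V ι τ) = 0 := Prod.ext rfl (funext fun s => om_zero_left _)
    rw [h3, add_zero] at h
    exact h
  rw [r0, rho, rho]
  symm
  refine LinearEquiv.finrank_eq (LinearEquiv.ofBijective
    (LinearMap.codRestrict (kr (FB D d a) (V0 D.toDat d))
      ((cor D.toDat d).comp (kr (fm D d a 0) (VS (univ.erase j))).subtype) ?_) ⟨?_, ?_⟩)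
  · rintro ⟨w, hw⟩
    refine ⟨hdg w, fun v hv => ?_⟩
    obtain ⟨w', hw', rfl⟩ := hsurj v hv
    show FB D d a (cor D.toDat d w) (cor D.toDat d w') = 0
    rw [key]
    exact hw.2 w' hw'
  · rintro ⟨w, hw⟩ ⟨w', hw'⟩ h
    have h1 : cor D.toDat d w = cor D.toDat d w' := congrArg Subtype.val h
    have h2 : w - w' = 0 := by
      apply hinj _ ((VS (τ := τ) (univ.erase j)).sub_mem hw.1 hw'.1)
      rw [map_sub, h1, sub_self]
    exact Subtype.ext (sub_eq_zero.1 h2)
  · rintro ⟨v, hv⟩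
    obtain ⟨w, hw, rfl⟩ := hsurj v hv.1
    refine ⟨⟨w, hw, fun w' hw' => ?_⟩, rfl⟩
    rw [← key]
    exact hv.2 _ (hdg w')

/-- the function of an array -/
noncomputable def Ps (D : DE τ) (d : ι → ZMod 2) (F : ℕ → ℝ) (c : ℝ) (a : Arr ι τ) : ℝ :=
  ind (clA D a) * (F (r0 D d a) - c)

theorem Mop_Ps (hN : ∑ i, d i + D.N = 1) (F : ℕ → ℝ) (c : ℝ) (j : ι) (a : Arr ι τ) :
    Mop j (Ps D d F c) a = 1 / 2 ^ Fintype.card τ * (EE D d F (univ.erase j) 0 a - c) := by
  set b : τ → ZMod 2 := fun s => D.ep s + ∑ i ∈ univ.erase j, a.B i s + D.g s with hb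
  set G : (ι → ZMod 2) → ℝ := fun x => F (rho (fm D d (rep j 0 a) x) (VS (univ.erase j))) - c with hG
  have hcl : ∀ v : ι ⊕ τ → ZMod 2, clA D (rep j v a) ↔ (fun s => v (Sum.inr s)) = b := by
    intro v
    rw [funext_iff]
    apply forall_congr'
    intro s
    have h1 : ∑ i, (rep j v a).B i s = v (Sum.inr s) + ∑ i ∈ univ.erase j, a.B i s := by
      rw [← add_sum_erase univ _ (mem_univ j)]
      congr 1
      · simp [rep]
      · refine sum_congr rfl fun i hi => ?_
        simp [rep, ne_of_mem_erase hi]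
    rw [h1, hb]
    have h2 : ∀ e x y z : ZMod 2, e + (x + y) + z = 0 ↔ x = e + y + z := by decide
    exact h2 _ _ _ _
  have h1 : ∀ v : ι ⊕ τ → ZMod 2, Ps D d F c (rep j v a) =
      ind ((fun s => v (Sum.inr s)) = b) * G (fun i => v (Sum.inl i)) := by
    intro v
    rw [Ps]
    by_cases h : clA D (rep j v a)
    · rw [ind_pos h, ind_pos ((hcl v).1 h), one_mul, one_mul, r0_eq h hN j, hG]
      show F _ - c = F _ - c
      congr 2
      apply rho_congr
      intro u hu w hw
      have hu' := hu j (notMem_erase j _)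
      have hw' := hw j (notMem_erase j _)
      have h2 := fm_rest D d j v a (vh j v) u w hu' hw'
      rw [fun_self] at h2
      rw [h2]
      have h3 := fm_x D d (rep j 0 a) 0 (vh j v) u w
      have h4 := fm_x D d (rep j 0 a) 0 (fun i => v (Sum.inl i)) u w
      rw [zero_add] at h3 h4
      rw [h3, h4]
      congr 1
      refine sum_congr rfl fun i _ => ?_
      by_cases hij : i = j
      · rw [hij, hu', om_zero_left, mul_zero, mul_zero]
      · rw [vh, if_neg hij]
    · rw [ind_neg h, ind_neg (fun h' => h ((hcl v).2 h')), zero_mul, zero_mul]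
  rw [Mop, av_congr h1]
  have h2 := av_equiv (Equiv.sumArrowEquivProdArrow ι τ (ZMod 2))
    (fun p : (ι → ZMod 2) × (τ → ZMod 2) => ind (p.2 = b) * G p.1)
  have h3 : av (fun v : ι ⊕ τ → ZMod 2 => ind ((fun s => v (Sum.inr s)) = b) *
      G (fun i => v (Sum.inl i))) = av (fun p : (ι → ZMod 2) × (τ → ZMod 2) =>
        ind (p.2 = b) * G p.1) := h2
  rw [h3, av_prod]
  have h4 : ∀ x : ι → ZMod 2, av (fun y : τ → ZMod 2 => ind (y = b) * G x) =
      1 / 2 ^ Fintype.card τ * G x := fun x => by rw [av_mul', av_point]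
  have h5 : av (fun x : ι → ZMod 2 => av fun y : τ → ZMod 2 =>
      ind ((x, y).2 = b) * G (x, y).1) = av fun x : ι → ZMod 2 => 1 / 2 ^ Fintype.card τ * G x :=
    av_congr h4
  rw [h5, av_mul, hG]
  congr 1
  rw [av_sub, av_const, EE_self D d F (notMem_erase j univ)]
  rfl

/-- **the random model for the class** -/
theorem model_cl (h2t : ∀ u : W, u ≠ 0 → ∃ s, om u (D.t s) ≠ 0) {F : ℕ → ℝ} {c : ℝ}
    (h0 : ∀ r, 0 ≤ F r) (h1 : ∀ r, F r ≤ 1) (hc : Cvp (sp D % 2) F c) {ε : ℝ} (hε : 0 < ε) :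
    ∃ K : ℕ, ∀ (ι : Type) [Fintype ι] (d : ι → ZMod 2) (l : List ι), ∑ i, d i + D.N = 1 →
      l.Nodup → 254 * (Fintype.card ι - l.length) + K ≤ l.length →
      ∀ a : Arr ι τ, |MM l (Ps D d F c) a| ≤ ε / 2 ^ Fintype.card τ := by
  obtain ⟨K, hK⟩ := model (D := D) h2t h0 h1 hc hε
  refine ⟨K + 1, fun ι _ d l hN hnd hlen a => ?_⟩
  cases l with
  | nil => simp at hlen
  | cons j l =>
    have h2 : MM (j :: l) (Ps D d F c) a =
        1 / 2 ^ Fintype.card τ * (MM l (EE D d F (univ.erase j) 0) a - c) := by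
      show MM l (Mop j (Ps D d F c)) a = _
      have h3 : Mop j (Ps D d F c) = fun a => 1 / 2 ^ Fintype.card τ *
          (EE D d F (univ.erase j) 0 a - (fun _ => c) a) := by
        funext b
        exact Mop_Ps hN F c j b
      rw [h3, MM_mul, MM_sub, MM_const]
    have hnd' := (List.nodup_cons.1 hnd)
    have h4 := hK ι d (univ.erase j) l hnd'.2 (fun i hi => mem_erase.2
      ⟨fun h => hnd'.1 (h ▸ hi), mem_univ _⟩) (by
        rw [card_erase_of_mem (mem_univ _), card_univ]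
        rw [List.length_cons] at hlen
        omega) a
    rw [h2, abs_mul, abs_of_nonneg (by positivity : (0 : ℝ) ≤ 1 / 2 ^ Fintype.card τ)]
    rw [div_mul_eq_mul_div, one_mul]
    exact div_le_div_of_nonneg_right h4 (by positivity)

end

end Pool.Agent.V8H26.YL
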